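import Mathlib
set_option autoImplicit false
open Pointwise MeasureTheory Module

namespace Pool.Agent.Helper279.Sau

/-- the segment from zero to c times y -/
def seg {E : Type*} [AddCommGroup E] [Module ℝ E] (c : ℝ) (y : E) : Set E :=
  (fun t : ℝ => t • y) '' Set.Icc 0 c

/-- the growth of the volume of M when a segment of direction y is added -/
noncomputable def F {E : Type*} [AddCommGroup E] [Module ℝ E] [MeasurableSpace E]
    (μ : Measure E) (M : Set E) (y : E) : ℝ :=
  μ.real (seg 1 y + M) - μ.real M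

/-- the full line of direction b -/
def lineS {E : Type*} [AddCommGroup E] [Module ℝ E] (b : E) : Set E :=
  Set.range (fun t : ℝ => t • b)

/-- a parallelogram -/
def par {E : Type*} [AddCommGroup E] [Module ℝ E] (c1 c2 al : ℝ) (y b : E) : Set E :=
  {z | ∃ c ∈ Set.Icc c1 c2, ∃ t ∈ Set.Icc 0 al, z = c • y + t • b}

variable {E : Type*} [NormedAddCommGroup E] [NormedSpace ℝ E] [FiniteDimensional ℝ E]
  [MeasurableSpace E] [BorelSpace E] (μ : Measure E) [μ.IsAddHaarMeasure]

omit [FiniteDimensional ℝ E] [MeasurableSpace E] [BorelSpace E] in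
lemma mem_seg {c : ℝ} {y z : E} : z ∈ seg c y ↔ ∃ t : ℝ, 0 ≤ t ∧ t ≤ c ∧ z = t • y := by
  constructor
  · rintro ⟨t, ht, rfl⟩; exact ⟨t, ht.1, ht.2, rfl⟩
  · rintro ⟨t, h0, h1, rfl⟩; exact ⟨t, ⟨h0, h1⟩, rfl⟩

omit [FiniteDimensional ℝ E] [MeasurableSpace E] [BorelSpace E] in
lemma mem_seg_add {c : ℝ} {y z : E} {M : Set E} :
    z ∈ seg c y + M ↔ ∃ t : ℝ, 0 ≤ t ∧ t ≤ c ∧ ∃ m ∈ M, z = t • y + m := by
  constructor
  · rintro ⟨s, ⟨t, ht, rfl⟩, m, hm, rfl⟩; exact ⟨t, ht.1, ht.2, m, hm, rfl⟩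
  · rintro ⟨t, h0, h1, m, hm, rfl⟩; exact ⟨_, ⟨t, ⟨h0, h1⟩, rfl⟩, m, hm, rfl⟩

omit [FiniteDimensional ℝ E] [MeasurableSpace E] [BorelSpace E] in
lemma isCompact_seg (c : ℝ) (y : E) : IsCompact (seg c y) :=
  isCompact_Icc.image (by fun_prop)

omit [FiniteDimensional ℝ E] [MeasurableSpace E] [BorelSpace E] in
lemma convex_seg (c : ℝ) (y : E) : Convex ℝ (seg c y) := by
  exact (convex_Icc (0:ℝ) c).is_linear_image (f := fun t : ℝ => t • y)
    (IsLinearMap.mk (fun a b => add_smul a b y) (fun a b => by rw [smul_eq_mul, mul_smul]))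

omit [FiniteDimensional ℝ E] [MeasurableSpace E] [BorelSpace E] in
lemma seg_nonempty {c : ℝ} (hc : 0 ≤ c) (y : E) : (seg c y).Nonempty :=
  ⟨0, mem_seg.2 ⟨0, le_refl _, hc, by simp⟩⟩

omit [FiniteDimensional ℝ E] [MeasurableSpace E] [BorelSpace E] in
lemma isCompact_par' (c1 c2 al : ℝ) (y b : E) : IsCompact (par c1 c2 al y b) := by
  have : par c1 c2 al y b
      = (fun s : ℝ × ℝ => s.1 • y + s.2 • b) '' (Set.Icc c1 c2 ×ˢ Set.Icc 0 al) := by
    ext z
    constructor
    · rintro ⟨c, hc, t, ht, rfl⟩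
      exact ⟨(c, t), ⟨hc, ht⟩, rfl⟩
    · rintro ⟨⟨c, t⟩, ⟨hc, ht⟩, rfl⟩
      exact ⟨c, hc, t, ht, rfl⟩
  rw [this]
  exact (isCompact_Icc.prod isCompact_Icc).image (by fun_prop)

omit [FiniteDimensional ℝ E] [MeasurableSpace E] [BorelSpace E] in
lemma isClosed_lineS (b : E) : IsClosed (lineS b) := by
  have : lineS b = (Submodule.span ℝ {b} : Set E) := by
    ext z
    simp only [lineS, Set.mem_range, SetLike.mem_coe, Submodule.mem_span_singleton]
  rw [this]
  exact Submodule.closed_of_finiteDimensional _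

omit [NormedSpace ℝ E] [FiniteDimensional ℝ E] [MeasurableSpace E] [BorelSpace E] in
lemma vadd_add_set (a : E) (S T : Set E) : (a +ᵥ S) + T = a +ᵥ (S + T) := by
  ext z
  constructor
  · rintro ⟨_, ⟨s, hs, rfl⟩, t, ht, rfl⟩
    exact ⟨s + t, ⟨s, hs, t, ht, rfl⟩, (add_assoc a s t).symm⟩
  · rintro ⟨_, ⟨s, hs, t, ht, rfl⟩, rfl⟩
    exact ⟨a + s, ⟨s, hs, rfl⟩, t, ht, add_assoc a s t⟩

omit [FiniteDimensional ℝ E] [MeasurableSpace E] [BorelSpace E] in
lemma seg_eq_segment {c : ℝ} (hc : 0 ≤ c) (y : E) : seg c y = segment ℝ 0 (c • y) := by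
  ext z
  rw [mem_seg, segment_eq_image]
  constructor
  · rintro ⟨t, h0, h1, rfl⟩
    rcases eq_or_lt_of_le hc with h | h
    · subst h
      have ht : t = 0 := le_antisymm h1 h0
      subst ht
      exact ⟨0, ⟨le_rfl, zero_le_one⟩, by simp⟩
    · refine ⟨t / c, ⟨by positivity, (div_le_one h).2 h1⟩, ?_⟩
      simp only [smul_zero, zero_add, smul_smul]
      rw [div_mul_cancel₀ t h.ne']
  · rintro ⟨θ, ⟨h0, h1⟩, rfl⟩
    refine ⟨θ * c, by positivity, mul_le_of_le_one_left hc h1, ?_⟩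
    simp only [smul_zero, zero_add, smul_smul]

omit [FiniteDimensional ℝ E] [MeasurableSpace E] [BorelSpace E] in
lemma segment_eq_vadd (p q : E) : segment ℝ p q = p +ᵥ seg 1 (q - p) := by
  ext z
  rw [segment_eq_image', Set.mem_vadd_set]
  constructor
  · rintro ⟨t, ht, rfl⟩
    exact ⟨t • (q - p), mem_seg.2 ⟨t, ht.1, ht.2, rfl⟩, rfl⟩
  · rintro ⟨w, hw, rfl⟩
    obtain ⟨t, h0, h1, rfl⟩ := mem_seg.1 hw
    exact ⟨t, ⟨h0, h1⟩, rfl⟩

/-- additivity of the growth -/
lemma seg_add {M : Set E} (hM : IsCompact M) (hc : Convex ℝ M) (hne : M.Nonempty) (y : E)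
    {c c' : ℝ} (h0 : 0 ≤ c) (h0' : 0 ≤ c') :
    μ.real (seg (c + c') y + M) + μ.real M = μ.real (seg c y + M) + μ.real (seg c' y + M) := by
  have hS : IsCompact (seg c y + M) := (isCompact_seg c y).add hM
  have hS' : IsCompact (seg c' y + M) := (isCompact_seg c' y).add hM
  have hT : IsCompact ((c • y) +ᵥ (seg c' y + M)) := hS'.vadd (c • y)
  have hU : seg (c + c') y + M = (seg c y + M) ∪ ((c • y) +ᵥ (seg c' y + M)) := by
    ext z
    rw [Set.mem_union, mem_seg_add, mem_seg_add, Set.mem_vadd_set]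
    constructor
    · rintro ⟨t, ht0, ht1, m, hm, rfl⟩
      rcases le_total t c with h | h
      · exact Or.inl ⟨t, ht0, h, m, hm, rfl⟩
      · right
        refine ⟨(t - c) • y + m, mem_seg_add.2 ⟨t - c, by linarith, by linarith, m, hm, rfl⟩, ?_⟩
        rw [vadd_eq_add, sub_smul]; abel
    · rintro (⟨t, ht0, ht1, m, hm, rfl⟩ | ⟨w, hw, rfl⟩)
      · exact ⟨t, ht0, by linarith, m, hm, rfl⟩
      · obtain ⟨t, ht0, ht1, m, hm, rfl⟩ := mem_seg_add.1 hw
        refine ⟨c + t, by linarith, by linarith, m, hm, ?_⟩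
        rw [vadd_eq_add, add_smul]; abel
  have hI : (seg c y + M) ∩ ((c • y) +ᵥ (seg c' y + M)) = (c • y) +ᵥ M := by
    ext z
    rw [Set.mem_inter_iff, mem_seg_add, Set.mem_vadd_set, Set.mem_vadd_set]
    constructor
    · rintro ⟨⟨t, ht0, ht1, m, hm, hz⟩, w, hw, hwz⟩
      obtain ⟨t', ht'0, ht'1, m', hm', rfl⟩ := mem_seg_add.1 hw
      refine ⟨z - c • y, ?_, by rw [vadd_eq_add]; abel⟩
      have e1 : z - c • y = m - (c - t) • y := by rw [hz, sub_smul]; abel
      have e2 : z - c • y = m' + t' • y := by rw [← hwz, vadd_eq_add]; abel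
      rcases (add_nonneg (sub_nonneg.2 ht1) ht'0).eq_or_lt with h | h
      · have h3 : c - t = 0 := by linarith [sub_nonneg.2 ht1]
        rw [e1, h3, zero_smul, sub_zero]; exact hm
      · have h3 : z - c • y = (t' / (c - t + t')) • m + ((c - t) / (c - t + t')) • m' := by
          have h4 : m = z - c • y + (c - t) • y := by rw [e1]; abel
          have h5 : m' = z - c • y - t' • y := by rw [e2]; abel
          rw [h4, h5]
          have h6 : (t' / (c - t + t')) + ((c - t) / (c - t + t')) = 1 := by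
            rw [← add_div, add_comm, div_self h.ne']
          have h7 : (t' / (c - t + t')) * (c - t) = ((c - t) / (c - t + t')) * t' := by ring
          calc z - c • y = ((t' / (c - t + t')) + ((c - t) / (c - t + t'))) • (z - c • y) := by
                rw [h6, one_smul]
            _ = (t' / (c - t + t')) • (z - c • y + (c - t) • y) +
                ((c - t) / (c - t + t')) • (z - c • y - t' • y) := by
                rw [smul_add, smul_smul, smul_sub (((c - t) / (c - t + t'))) (z - c • y) (t' • y),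
                  smul_smul, h7, add_smul]
                abel
        rw [h3]
        refine hc hm hm' (div_nonneg ht'0 h.le) (div_nonneg (sub_nonneg.2 ht1) h.le) ?_
        rw [← add_div, add_comm, div_self h.ne']
    · rintro ⟨m, hm, rfl⟩
      refine ⟨⟨c, h0, le_refl _, m, hm, rfl⟩, m, ?_, rfl⟩
      exact mem_seg_add.2 ⟨0, le_refl _, h0', m, hm, by rw [zero_smul, zero_add]⟩
  have hv : ∀ S : Set E, μ.real ((c • y) +ᵥ S) = μ.real S := by
    intro S
    rw [measureReal_def, measureReal_def, measure_vadd]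
  have h := measureReal_union_add_inter (μ := μ) (s := seg c y + M) (t := (c • y) +ᵥ (seg c' y + M))
    hT.measurableSet hS.measure_lt_top.ne hT.measure_lt_top.ne
  rw [← hU, hI, hv, hv] at h
  exact h

theorem h400_cauchy (h : ℝ → ℝ) (hadd : ∀ a b : ℝ, 0 ≤ a → 0 ≤ b → h (a + b) = h a + h b)
    (hmono : ∀ a b : ℝ, 0 ≤ a → a ≤ b → h a ≤ h b) (c : ℝ) (hc : 0 ≤ c) : h c = c * h 1 := by
  have h0 : h 0 = 0 := by
    have := hadd 0 0 le_rfl le_rfl
    rw [add_zero] at this
    linarith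
  have h1 : 0 ≤ h 1 := by
    rw [← h0]
    exact hmono 0 1 le_rfl zero_le_one
  have hn : ∀ (n : ℕ) (c : ℝ), 0 ≤ c → h (n * c) = n * h c := by
    intro n c hc
    induction n with
    | zero => rw [Nat.cast_zero, zero_mul, zero_mul, h0]
    | succ n ih =>
      have e1 : ((n + 1 : ℕ) : ℝ) * c = n * c + c := by
        push_cast
        ring
      rw [e1, hadd _ _ (by positivity) hc, ih]
      push_cast
      ring
  have hb : ∀ n : ℕ, (n : ℝ) * |h c - c * h 1| ≤ h 1 := by
    intro n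
    have hnc : 0 ≤ (n : ℝ) * c := by positivity
    have k1 := Nat.floor_le hnc
    have k2 := (Nat.lt_floor_add_one ((n : ℝ) * c)).le
    obtain ⟨k, hk⟩ : ∃ k, k = ⌊(n : ℝ) * c⌋₊ := ⟨_, rfl⟩
    rw [← hk] at k1 k2
    have e1 := hmono _ _ (by positivity : (0:ℝ) ≤ (k:ℝ) * 1) (by linarith : (k:ℝ) * 1 ≤ n * c)
    rw [hn k 1 zero_le_one, hn n c hc] at e1
    have e2 := hmono _ _ hnc (by push_cast; linarith : (n:ℝ) * c ≤ ((k + 1 : ℕ) : ℝ) * 1)
    rw [hn (k + 1) 1 zero_le_one, hn n c hc] at e2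
    push_cast at e2
    have e3 : (k : ℝ) * h 1 ≤ n * c * h 1 := mul_le_mul_of_nonneg_right k1 h1
    have e4 : (n : ℝ) * c * h 1 ≤ (k + 1) * h 1 := mul_le_mul_of_nonneg_right k2 h1
    rw [← abs_of_nonneg (Nat.cast_nonneg n : (0:ℝ) ≤ n), ← abs_mul, abs_le]
    constructor <;> nlinarith
  by_contra hne
  have hpos : 0 < |h c - c * h 1| := abs_pos.mpr (sub_ne_zero.mpr hne)
  obtain ⟨n, hn'⟩ := exists_nat_gt (h 1 / |h c - c * h 1|)
  rw [div_lt_iff₀ hpos] at hn'
  exact absurd (hb n) (not_le.mpr hn')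

/-- linearity -/
lemma seg_lin {M : Set E} (hM : IsCompact M) (hc : Convex ℝ M) (hne : M.Nonempty) (y : E)
    {c : ℝ} (h0 : 0 ≤ c) :
    μ.real (seg c y + M) = μ.real M + c * F μ M y := by
  have hfin : ∀ c : ℝ, μ (seg c y + M) ≠ ⊤ := fun c =>
    ((isCompact_seg c y).add hM).measure_lt_top.ne
  have hmono : ∀ a b : ℝ, 0 ≤ a → a ≤ b →
      μ.real (seg a y + M) - μ.real M ≤ μ.real (seg b y + M) - μ.real M := by
    intro a b _ hab
    apply sub_le_sub_right
    apply measureReal_mono _ (hfin b)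
    intro z hz
    rw [mem_seg_add] at hz ⊢
    obtain ⟨t, ht0, hta, m, hm, rfl⟩ := hz
    exact ⟨t, ht0, hta.trans hab, m, hm, rfl⟩
  have h1 := h400_cauchy (fun c => μ.real (seg c y + M) - μ.real M) (by
    intro a b ha hb
    have := seg_add μ hM hc hne y ha hb
    linarith) hmono c h0
  unfold F
  linarith

lemma F_smul {M : Set E} (hM : IsCompact M) (hc : Convex ℝ M) (hne : M.Nonempty) (y : E)
    {c : ℝ} (h0 : 0 ≤ c) :
    F μ M (c • y) = c * F μ M y := by
  have h1 : seg 1 (c • y) = seg c y := by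
    rw [seg_eq_segment zero_le_one, seg_eq_segment h0, one_smul]
  have h2 := seg_lin μ hM hc hne y h0
  have g1 : F μ M (c • y) = μ.real (seg 1 (c • y) + M) - μ.real M := rfl
  rw [g1, h1, h2]; ring

lemma F_neg (M : Set E) (y : E) : F μ M (-y) = F μ M y := by
  have e : seg 1 (-y) + M = (-y) +ᵥ (seg 1 y + M) := by
    ext z
    rw [Set.mem_vadd_set, mem_seg_add]
    constructor
    · rintro ⟨t, h0, h1, m, hm, rfl⟩
      refine ⟨(1 - t) • y + m, mem_seg_add.2 ⟨1 - t, by linarith, by linarith, m, hm, rfl⟩, ?_⟩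
      rw [vadd_eq_add, sub_smul, one_smul, smul_neg]
      abel
    · rintro ⟨w, hw, rfl⟩
      obtain ⟨t, h0, h1, m, hm, rfl⟩ := mem_seg_add.1 hw
      refine ⟨1 - t, by linarith, by linarith, m, hm, ?_⟩
      rw [vadd_eq_add, sub_smul, one_smul, smul_neg]
      abel
  have h : μ.real (seg 1 (-y) + M) = μ.real (seg 1 y + M) := by
    rw [e]
    show (μ ((-y) +ᵥ (seg 1 y + M))).toReal = (μ (seg 1 y + M)).toReal
    rw [measure_vadd]
  unfold F
  rw [h]

omit [FiniteDimensional ℝ E] [MeasurableSpace E] [BorelSpace E] in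
lemma F_mono_seg_zero (M : Set E) : seg 1 (0 : E) + M = M := by
  ext z
  rw [mem_seg_add]
  constructor
  · rintro ⟨t, _, _, m, hm, rfl⟩
    simpa using hm
  · intro hz
    exact ⟨0, le_rfl, zero_le_one, z, hz, by simp⟩

/-- growth is monotone in the shadow -/
lemma F_mono {M M' : Set E} (hM : IsCompact M) (hc : Convex ℝ M) (hne : M.Nonempty)
    (hM' : IsCompact M') (hc' : Convex ℝ M') (b : E)
    (h : ∀ m ∈ M, ∃ t : ℝ, ∃ m' ∈ M', m = m' + t • b) :
    F μ M b ≤ F μ M' b := by
  by_cases hb : b = 0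
  · subst hb
    unfold F
    rw [F_mono_seg_zero, F_mono_seg_zero, sub_self, sub_self]
  have hne' : M'.Nonempty := by
    obtain ⟨m, hm⟩ := hne
    obtain ⟨t, m', hm', _⟩ := h m hm
    exact ⟨m', hm'⟩
  have hbn : 0 < ‖b‖ := norm_pos_iff.mpr hb
  obtain ⟨B, hB⟩ := hM.isBounded.exists_norm_le
  obtain ⟨B', hB'⟩ := hM'.isBounded.exists_norm_le
  set R : ℝ := (B + B') / ‖b‖ with hR
  have hR0 : 0 ≤ R := by
    obtain ⟨m, hm⟩ := hne
    obtain ⟨m', hm'⟩ := hne'
    have h1 := (norm_nonneg m).trans (hB m hm)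
    have h2 := (norm_nonneg m').trans (hB' m' hm')
    positivity
  have hkey : ∀ T : ℝ, 0 ≤ T →
      μ.real M + T * F μ M b ≤ μ.real M' + (T + 2 * R) * F μ M' b := by
    intro T hT
    rw [← seg_lin μ hM hc hne b hT, ← seg_lin μ hM' hc' hne' b (by linarith : 0 ≤ T + 2 * R)]
    have hsub : seg T b + M ⊆ (-(R • b)) +ᵥ (seg (T + 2 * R) b + M') := by
      intro z hz
      obtain ⟨s, hs0, hs1, m, hm, rfl⟩ := mem_seg_add.mp hz
      obtain ⟨t, m', hm', hmm⟩ := h m hm
      have ht : |t| ≤ R := by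
        rw [hR, le_div_iff₀ hbn, ← Real.norm_eq_abs, ← norm_smul]
        have : t • b = m - m' := by rw [hmm]; abel
        rw [this]
        exact (norm_sub_le _ _).trans (add_le_add (hB m hm) (hB' m' hm'))
      rw [abs_le] at ht
      rw [Set.mem_vadd_set]
      refine ⟨(s + t + R) • b + m', mem_seg_add.mpr ⟨s + t + R, by linarith, by linarith, m', hm', rfl⟩, ?_⟩
      rw [hmm, vadd_eq_add]
      module
    have hcomp : IsCompact (seg (T + 2 * R) b + M') := (isCompact_seg _ _).add hM'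
    have hmeas : μ ((-(R • b)) +ᵥ (seg (T + 2 * R) b + M')) = μ (seg (T + 2 * R) b + M') :=
      measure_vadd μ _ _
    have hfin : μ ((-(R • b)) +ᵥ (seg (T + 2 * R) b + M')) ≠ ⊤ := by
      rw [hmeas]
      exact hcomp.measure_lt_top.ne
    calc μ.real (seg T b + M) ≤ μ.real ((-(R • b)) +ᵥ (seg (T + 2 * R) b + M')) :=
          measureReal_mono hsub hfin
      _ = μ.real (seg (T + 2 * R) b + M') := by
          unfold Measure.real
          rw [hmeas]
  by_contra hcon
  push Not at hcon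
  have hd : 0 < F μ M b - F μ M' b := by linarith
  set X : ℝ := |μ.real M' - μ.real M + 2 * R * F μ M' b| + 1 with hX
  have hX0 : 0 < X := by positivity
  have h1 := hkey (X / (F μ M b - F μ M' b)) (by positivity)
  have h2 : X / (F μ M b - F μ M' b) * (F μ M b - F μ M' b) = X := div_mul_cancel₀ _ hd.ne'
  have h3 := le_abs_self (μ.real M' - μ.real M + 2 * R * F μ M' b)
  nlinarith

lemma F_scale {M : Set E} (hM : IsCompact M) (hc : Convex ℝ M) (hne : M.Nonempty) (y : E)
    (hd : 1 ≤ finrank ℝ E) {r : ℝ} (hr : 0 < r) :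
    F μ (r • M) y = r ^ (finrank ℝ E - 1) * F μ M y := by
  have hscale : ∀ S : Set E, μ.real (r • S) = r ^ finrank ℝ E * μ.real S := by
    intro S
    rw [measureReal_def, measureReal_def, Measure.addHaar_smul, ENNReal.toReal_mul,
      ENNReal.toReal_ofReal (abs_nonneg _), abs_of_nonneg (by positivity)]
  have hset : seg 1 y + r • M = r • (seg (1 / r) y + M) := by
    ext z
    rw [mem_seg_add, Set.mem_smul_set]
    constructor
    · rintro ⟨t, h0, h1, m, hm, rfl⟩
      obtain ⟨m', hm', rfl⟩ := Set.mem_smul_set.1 hm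
      refine ⟨(t / r) • y + m', ?_, ?_⟩
      · rw [mem_seg_add]
        exact ⟨t / r, by positivity, by gcongr, m', hm', rfl⟩
      · rw [smul_add, smul_smul, mul_div_cancel₀ _ hr.ne']
    · rintro ⟨w, hw, rfl⟩
      rw [mem_seg_add] at hw
      obtain ⟨t, h0, h1, m, hm, rfl⟩ := hw
      refine ⟨r * t, by positivity, ?_, r • m, Set.smul_mem_smul_set hm, ?_⟩
      · calc r * t ≤ r * (1 / r) := by gcongr
          _ = 1 := by field_simp
      · rw [smul_add, smul_smul]
  have hF : F μ (r • M) y = μ.real (seg 1 y + r • M) - μ.real (r • M) := rfl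
  rw [hF, hset, hscale, hscale, seg_lin μ hM hc hne y (by positivity : (0 : ℝ) ≤ 1 / r)]
  obtain ⟨d, hd'⟩ : ∃ d, finrank ℝ E = d + 1 := ⟨finrank ℝ E - 1, by omega⟩
  rw [hd', Nat.add_sub_cancel, pow_succ]
  field_simp
  ring

lemma F_ge {M : Set E} (hM : IsCompact M) (hc : Convex ℝ M) (hne : M.Nonempty) (y : E)
    (h : Disjoint (interior M) (y +ᵥ interior M)) :
    μ.real M ≤ F μ M y := by
  have h1 : μ (interior M) = μ M := measure_interior_of_null_frontier (hc.addHaar_frontier μ)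
  have h2 : μ (y +ᵥ interior M) = μ M := by rw [measure_vadd, h1]
  have hopen : IsOpen (y +ᵥ interior M) := isOpen_interior.vadd y
  have hsub : interior M ∪ (y +ᵥ interior M) ⊆ seg 1 y + M := by
    rintro z (hz | ⟨w, hw, rfl⟩)
    · exact mem_seg_add.2 ⟨0, le_rfl, zero_le_one, z, interior_subset hz, by simp⟩
    · exact mem_seg_add.2 ⟨1, zero_le_one, le_rfl, w, interior_subset hw, by simp⟩
  have hK : IsCompact (seg 1 y + M) := (isCompact_seg 1 y).add hM
  have h3 : μ M + μ M ≤ μ (seg 1 y + M) := by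
    calc μ M + μ M = μ (interior M) + μ (y +ᵥ interior M) := by rw [h1, h2]
      _ = μ (interior M ∪ (y +ᵥ interior M)) := (measure_union h hopen.measurableSet).symm
      _ ≤ μ (seg 1 y + M) := measure_mono hsub
  have h4 := ENNReal.toReal_mono hK.measure_lt_top.ne h3
  rw [ENNReal.toReal_add hM.measure_lt_top.ne hM.measure_lt_top.ne] at h4
  unfold F Measure.real
  linarith

lemma F_affine {M : Set E} (hM : IsCompact M) (hc : Convex ℝ M) (hne : M.Nonempty) (y b : E)
    {c : ℝ} (h0 : 0 ≤ c) :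
    F μ (seg c y + M) b = F μ M b + c * (F μ (seg 1 b + M) y - F μ M y) := by
  have hS : IsCompact (seg 1 b + M) := (isCompact_seg 1 b).add hM
  have hSc : Convex ℝ (seg 1 b + M) := (convex_seg 1 b).add hc
  have hSn : (seg 1 b + M).Nonempty := (seg_nonempty zero_le_one b).add hne
  have e1 : seg 1 b + (seg c y + M) = seg c y + (seg 1 b + M) := add_left_comm _ _ _
  have h2 := seg_lin μ hS hSc hSn y h0
  have h3 := seg_lin μ hM hc hne y h0
  have g1 : F μ (seg c y + M) b
      = μ.real (seg 1 b + (seg c y + M)) - μ.real (seg c y + M) := rfl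
  have g2 : F μ M b = μ.real (seg 1 b + M) - μ.real M := rfl
  rw [g1, g2, e1, h2, h3]; ring

/-- the open version of the prism -/
lemma F_double_open {M : Set E} (hM : IsCompact M) (hc : Convex ℝ M)
    (hi : (interior M).Nonempty) (b : E) (T : ℝ) :
    IsOpen (seg T b + interior M) ∧ μ (seg T b + M) ≤ μ (seg T b + interior M) := by
  have ho : IsOpen (seg T b + interior M) := isOpen_interior.add_left
  refine ⟨ho, ?_⟩
  have hcl : seg T b + M ⊆ closure (seg T b + interior M) := by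
    have h1 : closure (interior M) = M := by
      rw [hc.closure_interior_eq_closure_of_nonempty_interior hi, hM.isClosed.closure_eq]
    rintro z ⟨s, hs, m, hm, rfl⟩
    rw [← h1] at hm
    have h2 : Continuous (fun m : E => s + m) := continuous_const.add continuous_id
    have h3 := image_closure_subset_closure_image h2 (s := interior M)
    have h4 : s + m ∈ (fun m : E => s + m) '' closure (interior M) := ⟨m, hm, rfl⟩
    refine closure_mono ?_ (h3 h4)
    rintro _ ⟨m', hm', rfl⟩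
    exact ⟨s, hs, m', hm', rfl⟩
  have hconv : Convex ℝ (seg T b + interior M) := (convex_seg T b).add hc.interior
  calc μ (seg T b + M) ≤ μ (closure (seg T b + interior M)) := measure_mono hcl
    _ ≤ μ ((seg T b + interior M) ∪ frontier (seg T b + interior M)) := by
        apply measure_mono
        rw [closure_eq_self_union_frontier]
    _ ≤ μ (seg T b + interior M) + μ (frontier (seg T b + interior M)) := measure_union_le _ _
    _ = μ (seg T b + interior M) := by
        rw [hconv.addHaar_frontier μ, add_zero]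

lemma F_double_vol {M : Set E} (hM : IsCompact M) (hc : Convex ℝ M)
    (hi : (interior M).Nonempty) (y b : E) {c : ℝ} (h0 : 0 ≤ c)
    (h : ∀ t : ℝ, Disjoint (interior M) ((c • y + t • b) +ᵥ interior M)) (T : ℝ) (hT : 0 ≤ T) :
    2 * μ.real (seg T b + M) ≤ μ.real (seg T b + (seg c y + M)) := by
  obtain ⟨ho, hle⟩ := F_double_open μ hM hc hi b T
  set U : Set E := seg T b + interior M with hU
  set V : Set E := (fun z : E => c • y + z) '' U with hV
  have hVo : IsOpen V := (Homeomorph.addLeft (c • y)).isOpenMap _ ho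
  have hdisj : Disjoint U V := by
    rw [Set.disjoint_left]
    rintro z ⟨s, ⟨t, ht, rfl⟩, m, hm, rfl⟩ ⟨w, ⟨s', ⟨t', ht', rfl⟩, m', hm', rfl⟩, hw⟩
    have h1 := h (t' - t)
    rw [Set.disjoint_left] at h1
    apply h1 hm
    refine ⟨m', hm', ?_⟩
    simp only [vadd_eq_add]
    have hw' : c • y + (t' • b + m') = t • b + m := hw
    have : m = c • y + (t' • b + m') - t • b := by rw [hw']; abel
    rw [this, sub_smul]
    abel
  have hUD : U ⊆ seg T b + (seg c y + M) := by
    rintro z ⟨s, hs, m, hm, rfl⟩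
    refine ⟨s, hs, m, ⟨0, ⟨0, ⟨le_rfl, h0⟩, by simp⟩, m, interior_subset hm, by simp⟩, rfl⟩
  have hVD : V ⊆ seg T b + (seg c y + M) := by
    rintro z ⟨w, ⟨s, hs, m, hm, rfl⟩, rfl⟩
    refine ⟨s, hs, c • y + m, ⟨c • y, ⟨c, ⟨h0, le_rfl⟩, rfl⟩, m, interior_subset hm, rfl⟩, ?_⟩
    show s + (c • y + m) = c • y + (s + m)
    abel
  have hDc : IsCompact (seg T b + (seg c y + M)) :=
    (isCompact_seg T b).add ((isCompact_seg c y).add hM)
  have hVm : μ V = μ U := by
    rw [hV, Set.image_add_left]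
    exact measure_preimage_add μ _ _
  have hsum : μ U + μ V ≤ μ (seg T b + (seg c y + M)) := by
    rw [← measure_union hdisj hVo.measurableSet]
    exact measure_mono (Set.union_subset hUD hVD)
  have hfin : μ (seg T b + (seg c y + M)) ≠ ⊤ := hDc.measure_lt_top.ne
  have h2 : μ (seg T b + M) + μ (seg T b + M) ≤ μ (seg T b + (seg c y + M)) := by
    refine le_trans ?_ hsum
    rw [hVm]
    exact add_le_add hle hle
  have h3 := ENNReal.toReal_mono hfin h2
  have hfinA : μ (seg T b + M) ≠ ⊤ := ((isCompact_seg T b).add hM).measure_lt_top.ne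
  rw [ENNReal.toReal_add hfinA hfinA] at h3
  simp only [Measure.real]
  linarith

lemma F_double {M : Set E} (hM : IsCompact M) (hc : Convex ℝ M) (hne : M.Nonempty)
    (hi : (interior M).Nonempty) (y b : E)
    {c : ℝ} (h0 : 0 ≤ c)
    (h : ∀ t : ℝ, Disjoint (interior M) ((c • y + t • b) +ᵥ interior M)) :
    2 * F μ M b ≤ F μ (seg c y + M) b := by
  have hne' : (seg c y + M).Nonempty :=
    Set.Nonempty.add ⟨0, ⟨0, ⟨le_rfl, h0⟩, by simp⟩⟩ hne
  have hM' : IsCompact (seg c y + M) := (isCompact_seg c y).add hM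
  have hc' : Convex ℝ (seg c y + M) := (convex_seg c y).add hc
  by_contra hcon
  push Not at hcon
  set A := μ.real M with hA
  set B := μ.real (seg c y + M) with hB
  have hpos : 0 < 2 * F μ M b - F μ (seg c y + M) b := by linarith
  have hBn : 0 ≤ B := measureReal_nonneg
  have hAn : 0 ≤ A := measureReal_nonneg
  obtain ⟨T, hT0, hT⟩ : ∃ T : ℝ, 0 ≤ T ∧ B < T * (2 * F μ M b - F μ (seg c y + M) b) := by
    refine ⟨(B + 1) / (2 * F μ M b - F μ (seg c y + M) b), by positivity, ?_⟩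
    rw [div_mul_cancel₀ _ hpos.ne']
    linarith
  have h1 := F_double_vol μ hM hc hi y b h0 h T hT0
  rw [seg_lin μ hM hc hne b hT0, seg_lin μ hM' hc' hne' b hT0] at h1
  nlinarith

/-- long parallelograms minus the strip -/
lemma par_big {M : Set E} (hM : IsCompact M) (hc : Convex ℝ M) (hne : M.Nonempty) (y b : E)
    {c1 c2 : ℝ} (h1 : 0 ≤ c1) (h12 : c1 ≤ c2) :
    ∃ C : ℝ, ∀ T : ℝ, 0 ≤ T →
      T * (F μ (seg c2 y + M) b - F μ (seg c1 y + M) b) - C
        ≤ μ.real ((par c1 c2 T y b + M) \ (lineS b + (seg c1 y + M))) := by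
  classical
  have hM1 : IsCompact (seg c1 y + M) := (isCompact_seg c1 y).add hM
  have hM1c : Convex ℝ (seg c1 y + M) := (convex_seg c1 y).add hc
  have hM1n : (seg c1 y + M).Nonempty := (seg_nonempty h1 y).add hne
  have hM2 : IsCompact (seg c2 y + M) := (isCompact_seg c2 y).add hM
  have hM2c : Convex ℝ (seg c2 y + M) := (convex_seg c2 y).add hc
  have hM2n : (seg c2 y + M).Nonempty := (seg_nonempty (h1.trans h12) y).add hne
  rcases eq_or_ne b 0 with hb | hb
  · refine ⟨0, fun T hT => ?_⟩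
    have hs : seg 1 (0 : E) = 0 := by
      ext z
      rw [mem_seg]
      constructor
      · rintro ⟨t, -, -, rfl⟩; simp
      · intro hz; exact ⟨0, le_refl _, zero_le_one, by simpa using hz⟩
    have hF0 : ∀ S : Set E, F μ S (0 : E) = 0 := by
      intro S; unfold F; rw [hs, zero_add, sub_self]
    rw [hb, hF0, hF0]
    simp
  · obtain ⟨B, hB⟩ := (hM2.add hM1.neg).isBounded.exists_norm_le
    have hB0 : 0 ≤ max B 0 := le_max_right _ _
    have hbn : 0 < ‖b‖ := norm_pos_iff.2 hb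
    set R := max B 0 / ‖b‖ with hR
    have hR0 : 0 ≤ R := div_nonneg hB0 hbn.le
    refine ⟨μ.real (seg c1 y + M) + 2 * R * F μ (seg c1 y + M) b, fun T hT => ?_⟩
    have hsub : seg T b + (seg c2 y + M)
        ⊆ ((par c1 c2 T y b + M) \ (lineS b + (seg c1 y + M)))
          ∪ ((-(R • b)) +ᵥ (seg (T + 2 * R) b + (seg c1 y + M))) := by
      intro z hz
      obtain ⟨t, ht0, htT, w, hw, rfl⟩ := mem_seg_add.1 hz
      obtain ⟨c, hc0, hcc, m, hm, rfl⟩ := mem_seg_add.1 hw
      rcases le_or_gt c c1 with hcc1 | hcc1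
      · right
        refine Set.mem_vadd_set.2 ⟨(t + R) • b + (c • y + m), ?_, ?_⟩
        · exact mem_seg_add.2 ⟨t + R, by linarith, by linarith, _,
            mem_seg_add.2 ⟨c, hc0, hcc1, m, hm, rfl⟩, rfl⟩
        · show -(R • b) + ((t + R) • b + (c • y + m)) = t • b + (c • y + m)
          rw [add_smul]; abel
      · by_cases hzR : t • b + (c • y + m) ∈ lineS b + (seg c1 y + M)
        · right
          obtain ⟨_, ⟨s, rfl⟩, v, hv, hsv⟩ := hzR
          have hsv' : s • b + v = t • b + (c • y + m) := hsv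
          have h3 : (s - t) • b = (c • y + m) - v := by
            have : (s - t) • b = (s • b + v) - v - t • b := by rw [sub_smul]; abel
            rw [this, hsv']; abel
          have h4 : ‖(s - t) • b‖ ≤ B := by
            rw [h3, sub_eq_add_neg]
            exact hB _ (Set.add_mem_add hw (Set.neg_mem_neg.2 hv))
          rw [norm_smul, Real.norm_eq_abs] at h4
          have h5 : |s - t| ≤ R := by
            rw [hR, le_div_iff₀ hbn]
            exact h4.trans (le_max_left _ _)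
          have h6 := abs_le.1 h5
          refine Set.mem_vadd_set.2 ⟨(s + R) • b + v, ?_, ?_⟩
          · exact mem_seg_add.2 ⟨s + R, by linarith [h6.1], by linarith [h6.2], v, hv, rfl⟩
          · show -(R • b) + ((s + R) • b + v) = t • b + (c • y + m)
            rw [← hsv', add_smul]; abel
        · left
          refine ⟨⟨c • y + t • b, ⟨c, ⟨hcc1.le, hcc⟩, t, ⟨ht0, htT⟩, rfl⟩, m, hm, ?_⟩, hzR⟩
          show c • y + t • b + m = t • b + (c • y + m)
          abel
    have hfin1 : μ ((par c1 c2 T y b + M) \ (lineS b + (seg c1 y + M))) ≠ ⊤ := by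
      have hcomp : IsCompact (par c1 c2 T y b + M) := (isCompact_par' c1 c2 T y b).add hM
      exact ((measure_mono Set.sdiff_subset).trans_lt hcomp.measure_lt_top).ne
    have hfin2 : μ ((-(R • b)) +ᵥ (seg (T + 2 * R) b + (seg c1 y + M))) ≠ ⊤ := by
      rw [measure_vadd]
      exact ((isCompact_seg _ b).add hM1).measure_lt_top.ne
    have hm1 := measureReal_mono (μ := μ) hsub
      ((measure_union_lt_top hfin1.lt_top hfin2.lt_top).ne)
    have hm2 := measureReal_union_le (μ := μ) ((par c1 c2 T y b + M) \ (lineS b + (seg c1 y + M)))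
      ((-(R • b)) +ᵥ (seg (T + 2 * R) b + (seg c1 y + M)))
    have hm3 : μ.real ((-(R • b)) +ᵥ (seg (T + 2 * R) b + (seg c1 y + M)))
        = μ.real (seg c1 y + M) + (T + 2 * R) * F μ (seg c1 y + M) b := by
      rw [← seg_lin μ hM1 hM1c hM1n b (by linarith : 0 ≤ T + 2 * R)]
      simp only [measureReal_def, measure_vadd]
    rw [seg_lin μ hM2 hM2c hM2n b hT] at hm1
    rw [hm3] at hm2
    have hm4 : 0 ≤ μ.real (seg c2 y + M) := measureReal_nonneg
    nlinarith

omit [FiniteDimensional ℝ E] [MeasurableSpace E] [BorelSpace E] in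
lemma isCompact_par (c1 c2 al : ℝ) (y b : E) : IsCompact (par c1 c2 al y b) := by
  have h : par c1 c2 al y b =
      (fun p : ℝ × ℝ => p.1 • y + p.2 • b) '' (Set.Icc c1 c2 ×ˢ Set.Icc 0 al) := by
    ext z
    constructor
    · rintro ⟨c, hc, t, ht, rfl⟩
      exact ⟨(c, t), ⟨hc, ht⟩, rfl⟩
    · rintro ⟨⟨c, t⟩, ⟨hc, ht⟩, rfl⟩
      exact ⟨c, hc, t, ht, rfl⟩
  rw [h]
  exact (isCompact_Icc.prod isCompact_Icc).image (by fun_prop)

omit [FiniteDimensional ℝ E] [MeasurableSpace E] [BorelSpace E] in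
lemma lineS_trans {N : Set E} {b z : E} (s : ℝ) (h : z ∈ lineS b + N) :
    s • b + z ∈ lineS b + N := by
  obtain ⟨_, ⟨t, rfl⟩, n, hn, rfl⟩ := h
  refine ⟨(s + t) • b, ⟨s + t, rfl⟩, n, hn, ?_⟩
  simp only [add_smul]
  abel

lemma par_sub {M : Set E} (hM : IsCompact M) (hne : M.Nonempty) (y b : E)
    {c1 c2 al : ℝ} (hal : 0 ≤ al) (k : ℕ) :
    μ.real ((par c1 c2 (k * al) y b + M) \ (lineS b + (seg c1 y + M)))
      ≤ k * μ.real ((par c1 c2 al y b + M) \ (lineS b + (seg c1 y + M)))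
        + μ.real ((par c1 c2 0 y b + M) \ (lineS b + (seg c1 y + M))) := by
  set R : Set E := lineS b + (seg c1 y + M) with hR
  have hfin : ∀ T : ℝ, μ ((par c1 c2 T y b + M) \ R) ≠ ⊤ := by
    intro T
    have h1 : μ (par c1 c2 T y b + M) < ⊤ := ((isCompact_par c1 c2 T y b).add hM).measure_lt_top
    exact ((measure_mono Set.sdiff_subset).trans_lt h1).ne
  induction k with
  | zero => simp
  | succ k ih =>
    have hpre : μ.real ((fun h => (-(k * al)) • b + h) ⁻¹' ((par c1 c2 al y b + M) \ R)) =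
        μ.real ((par c1 c2 al y b + M) \ R) := by
      unfold Measure.real
      rw [measure_preimage_add]
    have hpret : μ ((fun h => (-(k * al)) • b + h) ⁻¹' ((par c1 c2 al y b + M) \ R)) ≠ ⊤ := by
      rw [measure_preimage_add]
      exact hfin al
    have hsub : (par c1 c2 (((k + 1 : ℕ) : ℝ) * al) y b + M) \ R ⊆
        ((par c1 c2 (k * al) y b + M) \ R) ∪
          ((fun h => (-(k * al)) • b + h) ⁻¹' ((par c1 c2 al y b + M) \ R)) := by
      rintro z ⟨⟨_, ⟨c, hc, t, ht, rfl⟩, m, hm, rfl⟩, hz⟩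
      rcases le_total t (k * al) with h | h
      · left
        exact ⟨⟨_, ⟨c, hc, t, ⟨ht.1, h⟩, rfl⟩, m, hm, rfl⟩, hz⟩
      · right
        refine ⟨⟨c • y + (t - k * al) • b, ⟨c, hc, t - k * al, ⟨by linarith, ?_⟩, rfl⟩, m, hm, ?_⟩, ?_⟩
        · have := ht.2
          push_cast at this
          linarith
        · simp only [sub_smul, neg_smul]
          abel
        · intro hcon
          apply hz
          have := lineS_trans (k * al) hcon
          simpa using this
    calc μ.real ((par c1 c2 (((k + 1 : ℕ) : ℝ) * al) y b + M) \ R)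
        ≤ μ.real (((par c1 c2 (k * al) y b + M) \ R) ∪
          ((fun h => (-(k * al)) • b + h) ⁻¹' ((par c1 c2 al y b + M) \ R))) :=
          measureReal_mono hsub (by
            refine ne_of_lt (lt_of_le_of_lt (measure_union_le _ _) ?_)
            exact ENNReal.add_lt_top.mpr ⟨(hfin _).lt_top, hpret.lt_top⟩)
      _ ≤ μ.real ((par c1 c2 (k * al) y b + M) \ R) +
          μ.real ((fun h => (-(k * al)) • b + h) ⁻¹' ((par c1 c2 al y b + M) \ R)) :=
          measureReal_union_le _ _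
      _ ≤ _ := by
          rw [hpre]
          push_cast
          linarith

lemma par_local {M : Set E} (hM : IsCompact M) (hc : Convex ℝ M) (hne : M.Nonempty) (y b : E)
    {c1 c2 al : ℝ} (h1 : 0 ≤ c1) (h12 : c1 ≤ c2) (hal : 0 ≤ al) :
    al * (F μ (seg c2 y + M) b - F μ (seg c1 y + M) b)
      ≤ μ.real ((par c1 c2 al y b + M) \ (lineS b + (seg c1 y + M))) := by
  obtain ⟨C, hC⟩ := par_big μ hM hc hne y b h1 h12
  set G := F μ (seg c2 y + M) b - F μ (seg c1 y + M) b
  set m := μ.real ((par c1 c2 al y b + M) \ (lineS b + (seg c1 y + M)))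
  set m0 := μ.real ((par c1 c2 0 y b + M) \ (lineS b + (seg c1 y + M)))
  have key : ∀ k : ℕ, (k : ℝ) * (al * G - m) ≤ C + m0 := by
    intro k
    have h1 := hC (k * al) (by positivity)
    have h2 := par_sub μ hM hne y b (c1 := c1) (c2 := c2) hal k
    nlinarith
  by_contra hcon
  push Not at hcon
  obtain ⟨k, hk⟩ := exists_nat_gt ((C + m0) / (al * G - m))
  have hpos : 0 < al * G - m := by linarith
  rw [div_lt_iff₀ hpos] at hk
  linarith [key k]

/-- the gain lemma -/
lemma gain {M : Set E} (hM : IsCompact M) (hc : Convex ℝ M) (hi : (interior M).Nonempty)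
    (y b : E) {c1 c2 cs al : ℝ} (h1 : 0 ≤ c1) (h12 : c1 ≤ c2) (hal : 0 ≤ al) (hcs : 0 < cs)
    (h : ∀ t : ℝ, Disjoint (interior M) ((cs • y + t • b) +ᵥ interior M)) :
    al * ((c2 - c1) * (F μ M b / cs))
      ≤ μ.real ((par c1 c2 al y b + M) \ (lineS b + M)) := by
  have hne : M.Nonempty := hi.mono interior_subset
  set s := F μ (seg 1 b + M) y - F μ M y with hs
  have a1 := F_affine μ hM hc hne y b h1
  have a2 := F_affine μ hM hc hne y b (h1.trans h12)
  have a3 := F_affine μ hM hc hne y b hcs.le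
  have d := F_double μ hM hc hne hi y b hcs.le h
  rw [← hs] at a1 a2 a3
  have hsl : F μ M b / cs ≤ s := by
    rw [div_le_iff₀ hcs]; linarith
  have h3 := par_local μ hM hc hne y b h1 h12 hal
  have h4 : al * ((c2 - c1) * (F μ M b / cs))
      ≤ al * (F μ (seg c2 y + M) b - F μ (seg c1 y + M) b) := by
    apply mul_le_mul_of_nonneg_left _ hal
    rw [a1, a2]
    have : (c2 - c1) * (F μ M b / cs) ≤ (c2 - c1) * s :=
      mul_le_mul_of_nonneg_left hsl (by linarith)
    linarith
  refine h4.trans (h3.trans ?_)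
  have hsub : lineS b + M ⊆ lineS b + (seg c1 y + M) := by
    apply Set.add_subset_add_left
    intro m hm
    exact mem_seg_add.2 ⟨0, le_refl _, h1, m, hm, by simp⟩
  have hcomp : IsCompact (par c1 c2 al y b + M) := (isCompact_par' c1 c2 al y b).add hM
  refine measureReal_mono (Set.sdiff_subset_sdiff_right hsub) ?_
  exact ((measure_mono Set.sdiff_subset).trans_lt hcomp.measure_lt_top).ne

omit [FiniteDimensional ℝ E] [MeasurableSpace E] [BorelSpace E] in
/-- the norm of the difference body -/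
lemma exists_norm_aux {K : Set E} (hK : IsCompact K) (hc : Convex ℝ K)
    (hi : (interior K).Nonempty) :
    ∃ N : Seminorm ℝ E, Continuous N ∧ (∀ z, N z = 0 → z = 0) ∧
      (∀ a ∈ K, ∀ b ∈ K, N (a - b) ≤ 1) ∧
      (∀ z, N z < 1 → ∃ a ∈ interior K, ∃ b ∈ interior K, z = a - b) ∧
      (∀ a ∈ interior K, ∀ b ∈ interior K, N (a - b) < 1) := by
  obtain ⟨k, hk⟩ := hi
  have hDc : Convex ℝ (K - K) := hc.sub hc
  have hDK : IsCompact (K - K) := by rw [sub_eq_add_neg]; exact hK.add hK.neg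
  have hop : IsOpen (interior K - interior K) := isOpen_interior.sub_right
  have hsub : interior K - interior K ⊆ K - K := Set.sub_subset_sub interior_subset interior_subset
  have hsi : interior K - interior K ⊆ interior (K - K) := interior_maximal hsub hop
  have h0 : (K - K) ∈ nhds (0 : E) := by
    refine Filter.mem_of_superset (hop.mem_nhds ?_) hsub
    exact ⟨k, hk, k, hk, sub_self k⟩
  have hbal : Balanced ℝ (K - K) := by
    rw [balanced_iff_neg_mem hDc]
    rintro x ⟨a, ha, b, hb, rfl⟩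
    exact ⟨b, hb, a, ha, by rw [neg_sub]⟩
  have habs : Absorbent ℝ (K - K) := absorbent_nhds_zero h0
  refine ⟨gaugeSeminorm hbal hDc habs, continuous_gauge hDc h0, ?_, ?_, ?_, ?_⟩
  · intro z hz
    exact (gauge_eq_zero habs (NormedSpace.isVonNBounded_iff ℝ |>.2 hDK.isBounded)).1 hz
  · intro a ha b hb
    exact gauge_le_one_of_mem ⟨a, ha, b, hb, rfl⟩
  · intro z hz
    obtain ⟨t, ht0, ht1, w, ⟨k1, hk1, k2, hk2, rfl⟩, rfl⟩ := exists_lt_of_gauge_lt habs hz
    refine ⟨t • k1 + (1 - t) • k,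
      hc.combo_self_interior_mem_interior hk1 hk ht0.le (by linarith) (by ring),
      t • k2 + (1 - t) • k,
      hc.combo_self_interior_mem_interior hk2 hk ht0.le (by linarith) (by ring), ?_⟩
    simp only [smul_sub]
    abel
  · intro a ha b hb
    exact (gauge_lt_one_iff_mem_interior hDc h0).2 (hsi ⟨a, ha, b, hb, rfl⟩)

/-- the norm of the difference body -/
lemma exists_norm {K : Set E} (hK : IsCompact K) (hc : Convex ℝ K) (hi : (interior K).Nonempty) :
    ∃ N : Seminorm ℝ E, Continuous N ∧ (∀ z, N z = 0 → z = 0) ∧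
      (∀ a ∈ K, ∀ b ∈ K, N (a - b) ≤ 1) ∧
      (∀ z, N z < 1 → ∃ a ∈ interior K, ∃ b ∈ interior K, z = a - b) ∧
      (∀ a ∈ interior K, ∀ b ∈ interior K, N (a - b) < 1) := by
  exact exists_norm_aux hK hc hi

omit [FiniteDimensional ℝ E] [MeasurableSpace E] [BorelSpace E] in
/-- the almost nearest point on a segment -/
lemma near_point (N : Seminorm ℝ E) (hN : Continuous N) {p b x : E} {l : ℝ} (hl : 0 ≤ l)
    (hb : N b = 1) (hp : N (x - p) ≤ l) (hq : N (x - (p + l • b)) ≤ l) :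
    ∃ t : ℝ, 0 ≤ t ∧ t ≤ l ∧ N (x - (p + t • b)) ≤ l ∧
      ∀ s : ℝ, N (x - (p + t • b)) / 2 ≤ N (x - (p + s • b)) := by
  have hcont : Continuous (fun t : ℝ => N (x - (p + t • b))) := by fun_prop
  obtain ⟨t, ht, hmin⟩ := (isCompact_Icc (a := (0:ℝ)) (b := l)).exists_isMinOn
    ⟨0, by exact ⟨le_rfl, hl⟩⟩ hcont.continuousOn
  have hmin' : ∀ s : ℝ, 0 ≤ s → s ≤ l → N (x - (p + t • b)) ≤ N (x - (p + s • b)) :=
    fun s h0 h1 => hmin (show s ∈ Set.Icc (0:ℝ) l from ⟨h0, h1⟩)
  have hsm : ∀ r : ℝ, N (r • b) = |r| := by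
    intro r
    rw [map_smul_eq_mul, hb, mul_one, Real.norm_eq_abs]
  have he0 : N (x - (p + t • b)) ≤ N (x - p) := by
    have := hmin' 0 le_rfl hl
    simpa using this
  have hel := hmin' l hl le_rfl
  refine ⟨t, ht.1, ht.2, he0.trans hp, fun s => ?_⟩
  have hnn : 0 ≤ N (x - (p + t • b)) := apply_nonneg _ _
  -- the general comparison
  have cmp : ∀ r r' : ℝ, N (x - (p + r • b)) ≤ N (x - (p + r' • b)) + |r' - r| := by
    intro r r'
    have h1 : x - (p + r • b) = (x - (p + r' • b)) + (r' - r) • b := by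
      module
    rw [h1]
    refine (map_add_le_add N _ _).trans ?_
    rw [hsm]
  have cmp2 : ∀ r r' : ℝ, |r' - r| ≤ N (x - (p + r • b)) + N (x - (p + r' • b)) := by
    intro r r'
    have h1 : (r' - r) • b = (x - (p + r • b)) - (x - (p + r' • b)) := by
      module
    rw [← hsm, h1]
    exact map_sub_le_add N _ _
  rcases lt_or_ge s 0 with hs | hs
  · have h1 := cmp2 s l
    have h2 := cmp 0 s
    have h3 : |l - s| = l - s := abs_of_nonneg (by linarith)
    have h4 : |s - 0| = -s := by rw [sub_zero]; exact abs_of_neg hs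
    have h5 : N (x - (p + (0:ℝ) • b)) = N (x - p) := by simp
    rw [h3] at h1
    rw [h4, h5] at h2
    linarith
  · rcases le_or_gt s l with hsl | hsl
    · have := hmin' s hs hsl
      linarith
    · have h1 := cmp2 0 s
      have h2 := cmp l s
      have h3 : |s - 0| = s := by rw [sub_zero]; exact abs_of_nonneg hs
      have h4 : |s - l| = s - l := abs_of_pos (by linarith)
      have h5 : N (x - (p + (0:ℝ) • b)) = N (x - p) := by simp
      rw [h3, h5] at h1
      rw [h4] at h2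
      linarith

/-- packing of disjoint intervals -/
lemma chain_aux_25190 {n : ℕ} (J : Finset (Fin n)) (t e : Fin n → ℝ) {l : ℝ} (hl : 0 ≤ l)
    (ht : ∀ i, 0 ≤ t i ∧ t i ≤ l)
    (he : ∀ i, 0 ≤ e i) (hJ : ∀ i ∈ J, e i < 1/8)
    (h : ∀ i j, i ≠ j → 1 ≤ e i + e j + |t i - t j|) :
    ∑ i ∈ J, (1 - 2 * e i) ≤ l + 1 := by
  have hnn : ∀ i ∈ J, 0 ≤ 1 - 2 * e i := by
    intro i hi
    linarith [hJ i hi]
  have hdis : (J : Set (Fin n)).PairwiseDisjoint
      (fun i => Set.Ioo (t i - (1/2 - e i)) (t i + (1/2 - e i))) := by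
    intro i hi j hj hij
    rw [Function.onFun, Set.disjoint_left]
    intro x hxi hxj
    have h1 := h i j hij
    have h2 := hxi.1
    have h3 := hxi.2
    have h4 := hxj.1
    have h5 := hxj.2
    rcases abs_cases (t i - t j) with ⟨h6, _⟩ | ⟨h6, _⟩ <;> rw [h6] at h1 <;> linarith
  have hvol : volume (⋃ i ∈ J, Set.Ioo (t i - (1/2 - e i)) (t i + (1/2 - e i))) =
      ∑ i ∈ J, volume (Set.Ioo (t i - (1/2 - e i)) (t i + (1/2 - e i))) :=
    measure_biUnion_finset hdis (fun i _ => measurableSet_Ioo)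
  have hsub : (⋃ i ∈ J, Set.Ioo (t i - (1/2 - e i)) (t i + (1/2 - e i))) ⊆
      Set.Ioo (-(1/2) : ℝ) (l + 1/2) := by
    intro x hx
    rw [Set.mem_iUnion₂] at hx
    obtain ⟨i, _, hxi⟩ := hx
    have h2 := hxi.1
    have h3 := hxi.2
    have h4 := ht i
    have h5 := he i
    constructor <;> linarith
  have hle := measure_mono (μ := volume) hsub
  rw [hvol, Real.volume_Ioo] at hle
  have hsum : ∑ i ∈ J, volume (Set.Ioo (t i - (1/2 - e i)) (t i + (1/2 - e i))) =
      ENNReal.ofReal (∑ i ∈ J, (1 - 2 * e i)) := by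
    rw [ENNReal.ofReal_sum_of_nonneg hnn]
    apply Finset.sum_congr rfl
    intro i _
    rw [Real.volume_Ioo]
    congr 1
    ring
  rw [hsum, ENNReal.ofReal_le_ofReal_iff (by linarith)] at hle
  linarith

/-- the one dimensional chain inequality -/
lemma chain {n : ℕ} (t e : Fin n → ℝ) {l : ℝ} (hl : 0 ≤ l) (ht : ∀ i, 0 ≤ t i ∧ t i ≤ l)
    (he : ∀ i, 0 ≤ e i) (h : ∀ i j, i ≠ j → 1 ≤ e i + e j + |t i - t j|) :
    (n : ℝ) - 1 ≤ l + 8 * ∑ i, min (e i) (1/8) := by
  classical
  have h1 := chain_aux_25190 (Finset.univ.filter (fun i => e i < 1/8)) t e hl ht he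
    (fun i hi => (Finset.mem_filter.mp hi).2) h
  have h2 : ∑ i, (1 - 8 * min (e i) (1/8)) ≤
      ∑ i ∈ Finset.univ.filter (fun i => e i < 1/8), (1 - 2 * e i) := by
    rw [Finset.sum_filter]
    apply Finset.sum_le_sum
    intro i _
    by_cases hi : e i < 1/8
    · rw [if_pos hi, min_eq_left hi.le]
      linarith [he i]
    · rw [if_neg hi, min_eq_right (not_lt.mp hi)]
      norm_num
  rw [Finset.sum_sub_distrib, ← Finset.mul_sum] at h2
  simp only [Finset.sum_const, Finset.card_univ, Fintype.card_fin, nsmul_eq_mul, mul_one] at h2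
  linarith

omit [FiniteDimensional ℝ E] [MeasurableSpace E] [BorelSpace E] in
/-- the strips are disjoint -/
lemma disj_strip {K : Set E} (N : Seminorm ℝ E)
    (hN3 : ∀ a ∈ interior K, ∀ b ∈ interior K, N (a - b) < 1)
    {r e : ℝ} (hr : 0 < r) (he : 0 < e) {y b : E} (hy : ∀ s : ℝ, e / 2 ≤ N (y + s • b)) (t : ℝ) :
    Disjoint (interior (r • K)) (((2 * r / e) • y + t • b) +ᵥ interior (r • K)) := by
  rw [interior_smul₀ hr.ne']
  rw [Set.disjoint_left]
  rintro z ⟨a1, ha1, rfl⟩ ⟨z2, ⟨a2, ha2, rfl⟩, hz⟩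
  have hz' : ((2 * r / e) • y + t • b) + r • a2 = r • a1 := hz
  have h1 : (2 * r / e) • y + t • b = r • (a1 - a2) := by
    rw [smul_sub, ← hz']
    abel
  have h2 : (2 * r / e) • y + t • b = (2 * r / e) • (y + (t * e / (2 * r)) • b) := by
    rw [smul_add, smul_smul]
    congr 2
    field_simp
  have h3 : N (r • (a1 - a2)) = r * N (a1 - a2) := by
    rw [map_smul_eq_mul, Real.norm_of_nonneg hr.le]
  have h4 : N ((2 * r / e) • (y + (t * e / (2 * r)) • b)) =
      (2 * r / e) * N (y + (t * e / (2 * r)) • b) := by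
    rw [map_smul_eq_mul, Real.norm_of_nonneg (by positivity)]
  have h5 := hN3 a1 ha1 a2 ha2
  have h6 := hy (t * e / (2 * r))
  have h7 : r * N (a1 - a2) = (2 * r / e) * N (y + (t * e / (2 * r)) • b) := by
    rw [← h3, ← h4, ← h1, ← h2]
  have h8 : (2 * r / e) * (e / 2) ≤ (2 * r / e) * N (y + (t * e / (2 * r)) • b) :=
    mul_le_mul_of_nonneg_left h6 (by positivity)
  have h9 : (2 * r / e) * (e / 2) = r := by field_simp
  nlinarith

omit [FiniteDimensional ℝ E] [MeasurableSpace E] [BorelSpace E] in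
/-- the parallelogram lies in the convex hull -/
lemma par_in {C : Set E} (hC : Convex ℝ C) {o b x : E} {h al c1 c2 : ℝ} (hxC : x ∈ C)
    (hC' : ∀ u : ℝ, 0 ≤ u → u ≤ h → o + u • b ∈ C) (h1 : 0 ≤ c1) (h2 : c2 < 1)
    (hal : al ≤ h * (1 - c2)) :
    o +ᵥ par c1 c2 al (x - o) b ⊆ C := by
  rintro z ⟨w, ⟨c, hc, t, ht, rfl⟩, rfl⟩
  have hc1 : 0 < 1 - c := by linarith [hc.2]
  have hc2 : 0 < 1 - c2 := by linarith
  have hh : 0 ≤ h := by
    by_contra hcon
    push Not at hcon
    nlinarith [ht.1, ht.2]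
  have ht2 : t ≤ h * (1 - c) := by nlinarith [ht.2, hc.2]
  have hu1 : 0 ≤ t / (1 - c) := div_nonneg ht.1 hc1.le
  have hu2 : t / (1 - c) ≤ h := by
    rw [div_le_iff₀ hc1]
    exact ht2
  have hm := hC hxC (hC' _ hu1 hu2) (by linarith [hc.1] : 0 ≤ c) hc1.le (by ring)
  have e : o +ᵥ (c • (x - o) + t • b) = c • x + (1 - c) • (o + (t / (1 - c)) • b) := by
    rw [smul_add, smul_smul, mul_div_cancel₀ _ hc1.ne', vadd_eq_add, smul_sub, sub_smul, one_smul]
    abel
  show o +ᵥ (c • (x - o) + t • b) ∈ C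
  rw [e]
  exact hm

omit [FiniteDimensional ℝ E] [MeasurableSpace E] [BorelSpace E] in
/-- the parallelogram is near x -/
lemma par_near (N : Seminorm ℝ E) {o b x : E} {al c1 c2 : ℝ} (h1 : c1 ≤ 1) (h2 : c2 ≤ 1)
    (hb : N b ≤ 1) {z : E} (hz : z ∈ o +ᵥ par c1 c2 al (x - o) b) :
    N (z - x) ≤ (1 - c1) * N (x - o) + al := by
  obtain ⟨w, ⟨c, hc, t, ht, rfl⟩, rfl⟩ := hz
  have e : (o +ᵥ (c • (x - o) + t • b)) - x = (c - 1) • (x - o) + t • b := by
    rw [vadd_eq_add, sub_smul, one_smul]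
    abel
  show N ((o +ᵥ (c • (x - o) + t • b)) - x) ≤ _
  rw [e]
  refine (map_add_le_add N _ _).trans ?_
  rw [map_smul_eq_mul, map_smul_eq_mul, Real.norm_eq_abs, Real.norm_eq_abs, abs_of_nonneg ht.1,
    abs_of_nonpos (by linarith [hc.2])]
  have h0 : 0 ≤ N (x - o) := apply_nonneg N _
  have h3 : t * N b ≤ al := by nlinarith [ht.1, ht.2]
  have h4 : -(c - 1) * N (x - o) ≤ (1 - c1) * N (x - o) :=
    mul_le_mul_of_nonneg_right (by linarith [hc.1]) h0
  linarith

/-- the piece of volume near one centre -/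
lemma piece {K : Set E} (hK : IsCompact K) (hc : Convex ℝ K) (hi : (interior K).Nonempty)
    (N : Seminorm ℝ E) (hN : Continuous N)
    (hN1 : ∀ a ∈ K, ∀ b ∈ K, N (a - b) ≤ 1)
    (hN3 : ∀ a ∈ interior K, ∀ b ∈ interior K, N (a - b) < 1)
    {r : ℝ} (hr : 0 < r) (hr' : r < 1/1024) {k0 : E} (hk0 : k0 ∈ K)
    {C : Set E} (hC : Convex ℝ C) {p b x : E} {l t : ℝ} (hl : 1 ≤ l) (hb : N b = 1)
    (hpC : p ∈ C) (hqC : p + l • b ∈ C) (hxC : x ∈ C) (ht : 0 ≤ t) (htl : t ≤ l)
    (hxl : N (x - (p + t • b)) ≤ l)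
    (hx : ∀ s : ℝ, N (x - (p + t • b)) / 2 ≤ N (x - (p + s • b))) :
    ∃ W : Set E, MeasurableSet W ∧ W ⊆ C + r • K ∧
      Disjoint W ((p +ᵥ seg l b) + r • K) ∧ (∀ z ∈ W, N (z - (x + r • k0)) < 1/2) ∧
      min (N (x - (p + t • b))) (1/8) / (128 * r) * F μ (r • K) b ≤ μ.real W := by
  classical
  set o := p + t • b with ho
  set e := N (x - o) with he
  have he0 : 0 ≤ e := apply_nonneg N _
  rcases he0.eq_or_lt with h0 | hpos
  · refine ⟨∅, MeasurableSet.empty, Set.empty_subset _, Set.empty_disjoint _, by simp, ?_⟩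
    rw [← h0]; simp
  -- the sign
  obtain ⟨sg, hsg, hsgu⟩ : ∃ sg : ℝ, (sg = 1 ∨ sg = -1) ∧
      ∀ u : ℝ, 0 ≤ u → u ≤ l / 2 → 0 ≤ t + sg * u ∧ t + sg * u ≤ l := by
    rcases le_total t (l / 2) with h | h
    · exact ⟨1, Or.inl rfl, fun u hu hu' => ⟨by linarith, by linarith⟩⟩
    · exact ⟨-1, Or.inr rfl, fun u hu hu' => ⟨by linarith, by linarith⟩⟩
  set b' := sg • b with hb'
  have hFb : F μ (r • K) b' = F μ (r • K) b := by
    rcases hsg with h | h
    · rw [hb', h, one_smul]
    · rw [hb', h, neg_smul, one_smul, F_neg]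
  have hNb' : N b' ≤ 1 := by
    rcases hsg with h | h
    · rw [hb', h, one_smul, hb]
    · rw [hb', h, neg_smul, one_smul, map_neg_eq_map, hb]
  set ta := min 1 (1 / (8 * e)) with hta
  have hta0 : 0 < ta := lt_min one_pos (by positivity)
  have hta1 : ta ≤ 1 := min_le_left _ _
  have htae : ta * e = min e (1 / 8) := by
    rcases le_total e (1 / 8) with h | h
    · have : ta = 1 := by
        rw [hta]; apply min_eq_left
        rw [le_div_iff₀ (by positivity)]; linarith
      rw [this, min_eq_left h, one_mul]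
    · have : ta = 1 / (8 * e) := by
        rw [hta]; apply min_eq_right
        rw [div_le_iff₀ (by positivity)]; linarith
      rw [this, min_eq_right h]; field_simp
  have htae8 : ta * e ≤ 1 / 8 := by rw [htae]; exact min_le_right _ _
  -- the parameters
  have hal : (1 / 32 : ℝ) ≤ l / 2 * (1 - (1 - ta / 2)) := by
    have : (1 : ℝ) / 32 ≤ l * ta / 4 := by
      rcases le_total e (1 / 8) with h | h
      · have : ta = 1 := by
          rw [hta]; apply min_eq_left
          rw [le_div_iff₀ (by positivity)]; linarith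
        rw [this]; linarith
      · have h3 : ta = 1 / (8 * e) := by
          rw [hta]; apply min_eq_right
          rw [div_le_iff₀ (by positivity)]; linarith
        rw [h3]
        have h4 : l * (1 / (8 * e)) / 4 = (l / e) / 32 := by field_simp; ring
        rw [h4]
        have : 1 ≤ l / e := by rw [le_div_iff₀ hpos]; linarith
        linarith
    linarith
  have hKr : IsCompact (r • K) := hK.smul r
  have hKrc : Convex ℝ (r • K) := hc.smul r
  have hKne : K.Nonempty := ⟨k0, hk0⟩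
  have hKri : (interior (r • K)).Nonempty := by
    rw [interior_smul₀ hr.ne']; exact hi.smul_set
  set P := par (1 - ta) (1 - ta / 2) (1 / 32) (x - o) b' with hP
  have hline : ∀ s : ℝ, e / 2 ≤ N ((x - o) + s • b') := by
    intro s
    have := hx (t - sg * s)
    have e1 : x - (p + (t - sg * s) • b) = (x - o) + s • b' := by
      rw [ho, hb', sub_smul, smul_smul, mul_comm s sg]; abel
    rw [e1] at this
    exact this
  have hdisj := disj_strip N hN3 hr hpos hline
  have hg := gain μ hKr hKrc hKri (x - o) b' (c1 := 1 - ta) (c2 := 1 - ta / 2)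
    (al := 1 / 32) (cs := 2 * r / e) (by linarith) (by linarith) (by norm_num) (by positivity)
    (fun s => hdisj s)
  have hPc : IsCompact (P + r • K) := (isCompact_par' _ _ _ _ _).add hKr
  have hLc : IsClosed (lineS b' + r • K) := by
    exact (isClosed_lineS b').add_right_of_isCompact hKr
  refine ⟨o +ᵥ ((P + r • K) \ (lineS b' + r • K)), ?_, ?_, ?_, ?_, ?_⟩
  · exact (hPc.measurableSet.diff hLc.measurableSet).const_vadd o
  · rintro z ⟨w, ⟨⟨a, ha, k, hk, rfl⟩, -⟩, rfl⟩
    have h1 : o +ᵥ P ⊆ C := by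
      apply par_in hC hxC (h := l / 2) _ (by linarith) (by linarith) hal
      intro u hu hu'
      have h2 := hsgu u hu hu'
      have h3 : o + u • b' = p + (t + sg * u) • b := by
        rw [ho, hb', add_smul, smul_smul, mul_comm u sg]; abel
      rw [h3]
      have h4 : p + (t + sg * u) • b
          = (1 - (t + sg * u) / l) • p + ((t + sg * u) / l) • (p + l • b) := by
        have hl0 : l ≠ 0 := by linarith
        rw [smul_add, smul_smul, div_mul_cancel₀ _ hl0, sub_smul, one_smul]; abel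
      rw [h4]
      apply hC hpC hqC
      · have : (t + sg * u) / l ≤ 1 := by rw [div_le_one (by linarith)]; exact h2.2
        linarith
      · exact div_nonneg h2.1 (by linarith)
      · ring
    refine ⟨o + a, h1 ⟨a, ha, rfl⟩, k, hk, ?_⟩
    show o + a + k = o + (a + k)
    rw [add_assoc]
  · rw [Set.disjoint_left]
    rintro z ⟨w, ⟨-, hw⟩, rfl⟩ ⟨v, ⟨s, hs, rfl⟩, k, hk, hvk⟩
    apply hw
    obtain ⟨u, -, -, rfl⟩ := mem_seg.1 hs
    have hvk' : p + u • b + k = o + w := hvk
    refine ⟨(sg * (u - t)) • b', ⟨_, rfl⟩, k, hk, ?_⟩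
    have hsg2 : sg * sg = 1 := by rcases hsg with h | h <;> rw [h] <;> norm_num
    show (sg * (u - t)) • b' + k = w
    have h5 : (sg * (u - t)) • b' = (u - t) • b := by
      rw [hb', smul_smul]
      congr 1
      calc sg * (u - t) * sg = (sg * sg) * (u - t) := by ring
        _ = u - t := by rw [hsg2, one_mul]
    rw [h5, sub_smul]
    have : w = p + u • b + k - o := by rw [hvk']; abel
    rw [this, ho]; abel
  · rintro z ⟨w, ⟨⟨a, ha, k, hk, rfl⟩, -⟩, rfl⟩
    obtain ⟨k', hk', rfl⟩ := hk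
    have h1 := par_near N (o := o) (b := b') (x := x) (al := 1 / 32) (c1 := 1 - ta)
      (c2 := 1 - ta / 2) (by linarith) (by linarith) hNb' (z := o + a) ⟨a, ha, rfl⟩
    have h2 : (o +ᵥ (a + r • k')) - (x + r • k0) = (o + a - x) + r • (k' - k0) := by
      rw [smul_sub]; show o + (a + r • k') - (x + r • k0) = _; abel
    show N ((o +ᵥ (a + r • k')) - (x + r • k0)) < 1 / 2
    rw [h2]
    have h3 := map_add_le_add N (o + a - x) (r • (k' - k0))
    have h4 : N (r • (k' - k0)) ≤ r := by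
      rw [map_smul_eq_mul, Real.norm_eq_abs, abs_of_pos hr]
      have := hN1 k' hk' k0 hk0
      nlinarith
    have h5 : (1 - (1 - ta)) * N (x - o) = ta * e := by rw [he]; ring
    rw [h5] at h1
    linarith
  · have h1 : μ.real (o +ᵥ ((P + r • K) \ (lineS b' + r • K)))
        = μ.real ((P + r • K) \ (lineS b' + r • K)) := by
      simp only [measureReal_def, measure_vadd]
    rw [h1]
    refine le_trans (le_of_eq ?_) hg
    rw [hFb, ← htae]
    field_simp
    ring

omit [FiniteDimensional ℝ E] [BorelSpace E] [NormedSpace ℝ E] in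
lemma total {n : ℕ} {ν : Measure E} (S T : Set E) (W : Fin n → Set E) (hW : ∀ i, MeasurableSet (W i))
    (hT : ν T ≠ ⊤) (hST : S ⊆ T) (hWT : ∀ i, W i ⊆ T) (hSW : ∀ i, Disjoint (W i) S)
    (hWW : ∀ i j, i ≠ j → Disjoint (W i) (W j)) :
    ν.real S + ∑ i, ν.real (W i) ≤ ν.real T := by
  have hU : MeasurableSet (⋃ i, W i) := MeasurableSet.iUnion hW
  have hdis : Disjoint S (⋃ i, W i) := by
    rw [Set.disjoint_iUnion_right]
    exact fun i => (hSW i).symm
  have h1 : ν (⋃ i, W i) = ∑ i, ν (W i) := by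
    rw [measure_iUnion (fun i j hij => hWW i j hij) hW, tsum_fintype]
  have h2 : ν (S ∪ ⋃ i, W i) = ν S + ∑ i, ν (W i) := by
    rw [measure_union hdis hU, h1]
  have h3 : S ∪ ⋃ i, W i ⊆ T := Set.union_subset hST (Set.iUnion_subset hWT)
  have h4 : ν S + ∑ i, ν (W i) ≤ ν T := by
    rw [← h2]
    exact measure_mono h3
  have hS : ν S ≠ ⊤ := ne_top_of_le_ne_top hT (measure_mono hST)
  have hWi : ∀ i, ν (W i) ≠ ⊤ := fun i => ne_top_of_le_ne_top hT (measure_mono (hWT i))
  have h5 := ENNReal.toReal_mono hT h4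
  rw [ENNReal.toReal_add hS (ENNReal.sum_ne_top.2 fun i _ => hWi i),
    ENNReal.toReal_sum fun i _ => hWi i] at h5
  exact h5

omit [FiniteDimensional ℝ E] [MeasurableSpace E] [BorelSpace E] in
lemma exists_functional {K : Set E} (hc : Convex ℝ K) (hi : (interior K).Nonempty) {b : E}
    (hb : ∀ a ∈ interior K, ∀ c ∈ interior K, b ≠ a - c) :
    ∃ f : E →L[ℝ] ℝ, 0 < f b ∧ ∀ a ∈ K, ∀ c ∈ K, f a - f c ≤ f b := by
  have hconv : Convex ℝ (interior K - interior K) := hc.interior.sub hc.interior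
  have hopen : IsOpen (interior K - interior K) := isOpen_interior.sub_right
  have hbU : b ∉ interior K - interior K := by
    rintro ⟨a, ha, c, hc', h⟩
    exact hb a ha c hc' h.symm
  obtain ⟨f, hf⟩ := geometric_hahn_banach_open_point hconv hopen hbU
  obtain ⟨k, hk⟩ := hi
  have hfb : 0 < f b := by
    have h := hf (k - k) ⟨k, hk, k, hk, rfl⟩
    rwa [sub_self, map_zero] at h
  refine ⟨f, hfb, fun a ha c hcK => ?_⟩
  by_contra hcon
  push Not at hcon
  have hD : 0 < f a - f c := by linarith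
  obtain ⟨s, hs⟩ : ∃ s, s = (f a - f c - f b) / (2 * (f a - f c)) := ⟨_, rfl⟩
  have hs0 : 0 < s := by
    rw [hs]
    exact div_pos (by linarith) (by linarith)
  have hs1 : s < 1 := by
    rw [hs, div_lt_one (by linarith)]
    linarith
  have hsD : s * (f a - f c) = (f a - f c - f b) / 2 := by
    rw [hs]; field_simp
  have ha' := hc.combo_self_interior_mem_interior ha hk (a := 1 - s) (b := s) (by linarith) hs0
    (by ring)
  have hc' := hc.combo_self_interior_mem_interior hcK hk (a := 1 - s) (b := s) (by linarith) hs0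
    (by ring)
  have h := hf _ (Set.sub_mem_sub ha' hc')
  simp only [map_sub, map_add, map_smul, smul_eq_mul] at h
  nlinarith

/-- a flat shadow -/
lemma exists_flat {K : Set E} (hK : IsCompact K) (hc : Convex ℝ K) (hi : (interior K).Nonempty)
    {b : E} (f : E →L[ℝ] ℝ) (hf : 0 < f b) (hf' : ∀ a ∈ K, ∀ c ∈ K, f a - f c ≤ f b) :
    ∃ A : Set E, IsCompact A ∧ Convex ℝ A ∧ finrank ℝ (vectorSpan ℝ A) = finrank ℝ E - 1 ∧
      K ⊆ A + seg 1 b ∧ (∀ a ∈ A, ∃ t : ℝ, ∃ k ∈ K, a = k + t • b) ∧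
      (∃ m : ℝ, ∀ a ∈ A, f a = m) := by
  have hKne : K.Nonempty := hi.mono interior_subset
  obtain ⟨k0, hk0, hmin⟩ := hK.exists_isMinOn hKne f.continuous.continuousOn
  have hmin' : ∀ x ∈ K, f k0 ≤ f x := fun x hx => hmin hx
  set m := f k0 with hm
  set φ : E → E := fun x => x - ((f x - m) / f b) • b with hφ
  have hfφ : ∀ x, f (φ x) = m := by
    intro x
    simp only [hφ, map_sub, map_smul, smul_eq_mul]
    field_simp
    ring
  have hsub : ∀ x y, x - y = (φ x - φ y) + ((f x - f y) / f b) • b := by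
    intro x y
    simp only [hφ]
    have : (f x - f y) / f b = (f x - m) / f b - (f y - m) / f b := by ring
    rw [this, sub_smul]
    abel
  refine ⟨φ '' K, ?_, ?_, ?_, ?_, ?_, ⟨m, ?_⟩⟩
  · exact hK.image (by fun_prop)
  · rintro _ ⟨x, hx, rfl⟩ _ ⟨y, hy, rfl⟩ s t hs ht hst
    refine ⟨s • x + t • y, hc hx hy hs ht hst, ?_⟩
    simp only [hφ, map_add, map_smul, smul_eq_mul]
    have : (s * f x + t * f y - m) / f b = s * ((f x - m) / f b) + t * ((f y - m) / f b) := by
      have hm' : t = 1 - s := by linarith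
      rw [hm']
      field_simp
      ring
    rw [this, add_smul, mul_smul, mul_smul, smul_sub, smul_sub]
    abel
  · apply le_antisymm
    · have h1 : vectorSpan ℝ (φ '' K) ≤ LinearMap.ker (f : E →ₗ[ℝ] ℝ) := by
        rw [vectorSpan_def, Submodule.span_le]
        rintro _ ⟨_, ⟨x, hx, rfl⟩, _, ⟨y, hy, rfl⟩, rfl⟩
        simp only [vsub_eq_sub, SetLike.mem_coe, LinearMap.mem_ker, map_sub]
        show f (φ x) - f (φ y) = 0
        rw [hfφ, hfφ, sub_self]
      have h2 := LinearMap.finrank_range_add_finrank_ker (f : E →ₗ[ℝ] ℝ)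
      have h3 : LinearMap.range (f : E →ₗ[ℝ] ℝ) = ⊤ := by
        rw [LinearMap.range_eq_top]
        intro r
        refine ⟨(r / f b) • b, ?_⟩
        show f ((r / f b) • b) = r
        rw [map_smul, smul_eq_mul, div_mul_cancel₀ _ hf.ne']
      rw [h3, finrank_top, Module.finrank_self] at h2
      have h4 := Submodule.finrank_mono h1
      omega
    · have h1 : vectorSpan ℝ K = ⊤ := by
        apply AffineSubspace.vectorSpan_eq_top_of_affineSpan_eq_top ℝ E E
        apply affineSpan_eq_top_of_nonempty_interior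
        rw [hc.convexHull_eq]
        exact hi
      have h2 : vectorSpan ℝ K ≤ vectorSpan ℝ (φ '' K) ⊔ Submodule.span ℝ {b} := by
        rw [vectorSpan_def, Submodule.span_le]
        rintro _ ⟨x, hx, y, hy, rfl⟩
        show x - y ∈ vectorSpan ℝ (φ '' K) ⊔ Submodule.span ℝ {b}
        rw [hsub x y]
        apply Submodule.add_mem
        · apply Submodule.mem_sup_left
          exact vsub_mem_vectorSpan ℝ (Set.mem_image_of_mem _ hx) (Set.mem_image_of_mem _ hy)
        · apply Submodule.mem_sup_right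
          exact Submodule.smul_mem _ _ (Submodule.mem_span_singleton_self b)
      rw [h1] at h2
      have h3 := Submodule.finrank_mono h2
      rw [finrank_top] at h3
      have h4 := Submodule.finrank_add_le_finrank_add_finrank (vectorSpan ℝ (φ '' K)) (Submodule.span ℝ {b})
      have h5 := finrank_span_le_card (R := ℝ) ({b} : Set E)
      simp only [Set.toFinset_singleton, Finset.card_singleton] at h5
      omega
  · intro x hx
    refine ⟨φ x, ⟨x, hx, rfl⟩, ((f x - m) / f b) • b, mem_seg.2 ⟨_, ?_, ?_, rfl⟩, ?_⟩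
    · exact div_nonneg (sub_nonneg.2 (hmin' x hx)) hf.le
    · rw [div_le_one hf]
      exact hf' x hx k0 hk0
    · simp only [hφ]
      abel
  · rintro _ ⟨x, hx, rfl⟩
    refine ⟨-((f x - m) / f b), x, hx, ?_⟩
    simp only [hφ, neg_smul]
    abel
  · rintro _ ⟨x, hx, rfl⟩
    exact hfφ x

/-- flat sets are null -/
lemma flat_null {A : Set E} (f : E →ₗ[ℝ] ℝ) (hf : f ≠ 0) {m : ℝ} (hA : ∀ a ∈ A, f a = m) :
    μ.real A = 0 := by
  rcases A.eq_empty_or_nonempty with h | ⟨a0, ha0⟩
  · subst h; simp [Measure.real]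
  have hker : LinearMap.ker f ≠ ⊤ := by
    intro h
    exact hf (LinearMap.ker_eq_top.mp h)
  have h0 : μ (LinearMap.ker f : Set E) = 0 := Measure.addHaar_submodule μ _ hker
  have hsub : A ⊆ (fun z => a0 + z) '' (LinearMap.ker f : Set E) := by
    intro a ha
    refine ⟨a - a0, ?_, by simp⟩
    simp [LinearMap.mem_ker, map_sub, hA a ha, hA a0 ha0]
  have h1 : μ ((fun z => a0 + z) '' (LinearMap.ker f : Set E)) = 0 := by
    rw [Set.image_add_left, measure_preimage_add, h0]
  have h2 : μ A = 0 := measure_mono_null hsub h1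
  simp [Measure.real, h2]

lemma cyl_exists {K : Set E} (hK : IsCompact K) (hc : Convex ℝ K) (hi : (interior K).Nonempty)
    {b : E} (hb : ∀ a ∈ interior K, ∀ c ∈ interior K, b ≠ a - c) :
    ∃ A : Set E, IsCompact A ∧ Convex ℝ A ∧ finrank ℝ (vectorSpan ℝ A) = finrank ℝ E - 1 ∧
      K ⊆ A + segment ℝ 0 b ∧ μ.real (A + segment ℝ 0 b) = F μ K b := by
  obtain ⟨f, hf, hf'⟩ := exists_functional hc hi hb
  obtain ⟨A, hA, hAc, hAd, hKA, hAK, m, hm⟩ := exists_flat hK hc hi f hf hf'
  have hs : segment ℝ 0 b = seg 1 b := by rw [seg_eq_segment zero_le_one, one_smul]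
  have hKne : K.Nonempty := hi.mono interior_subset
  have hAne : A.Nonempty := by
    obtain ⟨k, hk⟩ := hKne
    obtain ⟨a, ha, -⟩ := hKA hk
    exact ⟨a, ha⟩
  refine ⟨A, hA, hAc, hAd, by rw [hs]; exact hKA, ?_⟩
  have hnull : μ.real A = 0 := by
    refine flat_null μ (f : E →ₗ[ℝ] ℝ) ?_ (m := m) hm
    intro h0
    have : f b = 0 := by
      have := congrArg (fun g : E →ₗ[ℝ] ℝ => g b) h0
      simpa using this
    linarith
  have h1 : F μ A b = F μ K b := by
    apply le_antisymm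
    · exact F_mono μ hA hAc hAne hK hc b hAK
    · refine F_mono μ hK hc hKne hA hAc b ?_
      intro k hk
      obtain ⟨a, ha, s, hs', hsk⟩ := hKA hk
      obtain ⟨t, -, -, rfl⟩ := mem_seg.1 hs'
      exact ⟨t, a, ha, hsk.symm⟩
  rw [hs, add_comm, seg_lin μ hA hAc hAne b zero_le_one, hnull, h1]; ring

lemma cyl_lower {K : Set E} (hK : IsCompact K) (hc : Convex ℝ K) (hi : (interior K).Nonempty)
    (hd : 1 ≤ finrank ℝ E) {A : Set E} {p q : E} (hA : IsCompact A) (hAc : Convex ℝ A)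
    (hAd : finrank ℝ (vectorSpan ℝ A) = finrank ℝ E - 1) (hKA : K ⊆ A + segment ℝ p q) :
    (∀ a ∈ interior K, ∀ c ∈ interior K, q - p ≠ a - c) ∧
      F μ K (q - p) ≤ μ.real (A + segment ℝ p q) := by
  have hKne : K.Nonempty := hi.mono interior_subset
  have hdec : ∀ k ∈ K, ∃ a ∈ A, ∃ t : ℝ, 0 ≤ t ∧ t ≤ 1 ∧ k = a + (p + t • (q - p)) := by
    intro k hk
    obtain ⟨a, ha, s, hs, rfl⟩ := hKA hk
    rw [segment_eq_vadd] at hs
    obtain ⟨s', hs', rfl⟩ := hs
    obtain ⟨t, h0, h1, rfl⟩ := mem_seg.mp hs'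
    exact ⟨a, ha, t, h0, h1, rfl⟩
  obtain ⟨a0, ha0⟩ : A.Nonempty := by
    obtain ⟨k, hk⟩ := hKne
    obtain ⟨a, ha, _⟩ := hdec k hk
    exact ⟨a, ha⟩
  have hlt : vectorSpan ℝ A < ⊤ := by
    rw [lt_top_iff_ne_top]
    intro htop
    rw [htop, finrank_top] at hAd
    omega
  obtain ⟨f, hf0, hfk⟩ := Submodule.exists_le_ker_of_lt_top _ hlt
  have hconst : ∀ a ∈ A, f a = f a0 := by
    intro a ha
    have h1 : a -ᵥ a0 ∈ vectorSpan ℝ A := vsub_mem_vectorSpan ℝ ha ha0
    have h2 := hfk h1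
    rw [LinearMap.mem_ker, vsub_eq_sub, map_sub, sub_eq_zero] at h2
    exact h2
  have hval : ∀ k ∈ K, ∃ t : ℝ, 0 ≤ t ∧ t ≤ 1 ∧ f k = f a0 + f p + t * f (q - p) := by
    intro k hk
    obtain ⟨a, ha, t, h0, h1, rfl⟩ := hdec k hk
    refine ⟨t, h0, h1, ?_⟩
    rw [map_add, map_add, map_smul, hconst a ha, smul_eq_mul]
    ring
  have hbd : ∀ k ∈ K, ∀ k' ∈ K, |f k - f k'| ≤ |f (q - p)| := by
    intro k hk k' hk'
    obtain ⟨t, h0, h1, e⟩ := hval k hk
    obtain ⟨t', h0', h1', e'⟩ := hval k' hk'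
    have h2 : f k - f k' = (t - t') * f (q - p) := by rw [e, e']; ring
    rw [h2, abs_mul]
    have h3 : |t - t'| ≤ 1 := by
      rw [abs_le]
      constructor <;> linarith
    calc |t - t'| * |f (q - p)| ≤ 1 * |f (q - p)| :=
          mul_le_mul_of_nonneg_right h3 (abs_nonneg _)
      _ = |f (q - p)| := one_mul _
  refine ⟨?_, ?_⟩
  · intro a ha c hc' hac
    obtain ⟨v, hv⟩ : ∃ v, 0 < f v := by
      obtain ⟨v, hv⟩ : ∃ v, f v ≠ 0 := by
        by_contra hcon
        push Not at hcon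
        exact hf0 (LinearMap.ext hcon)
      rcases lt_or_gt_of_ne hv with h1 | h1
      · exact ⟨-v, by rw [map_neg]; linarith⟩
      · exact ⟨v, h1⟩
    have hcK : c ∈ K := interior_subset hc'
    have hev : ∀ᶠ e : ℝ in nhds 0, a + e • v ∈ K := by
      have h1 : Filter.Tendsto (fun e : ℝ => a + e • v) (nhds 0) (nhds (a + (0 : ℝ) • v)) :=
        Continuous.tendsto (by fun_prop) 0
      rw [zero_smul, add_zero] at h1
      exact h1 (mem_interior_iff_mem_nhds.mp ha)
    rw [Metric.eventually_nhds_iff] at hev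
    obtain ⟨δ, hδ, hball⟩ := hev
    have h1 : a + (δ / 2) • v ∈ K := hball (by
      rw [Real.dist_eq, sub_zero, abs_of_pos (by linarith)]
      linarith)
    have h2 : a + (-(δ / 2)) • v ∈ K := hball (by
      rw [Real.dist_eq, sub_zero, abs_neg, abs_of_pos (by linarith)]
      linarith)
    have h3 := hbd _ h1 _ hcK
    have h4 := hbd _ h2 _ hcK
    have e1 : f (a + (δ / 2) • v) - f c = f (q - p) + (δ / 2) * f v := by
      rw [hac, map_add, map_smul, map_sub, smul_eq_mul]
      ring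
    have e2 : f (a + (-(δ / 2)) • v) - f c = f (q - p) - (δ / 2) * f v := by
      rw [hac, map_add, map_smul, map_sub, smul_eq_mul]
      ring
    rw [e1] at h3
    rw [e2] at h4
    have hpos : 0 < δ / 2 * f v := by positivity
    rcases le_total 0 (f (q - p)) with h5 | h5
    · rw [abs_of_nonneg h5] at h3
      have := le_abs_self (f (q - p) + δ / 2 * f v)
      linarith
    · rw [abs_of_nonpos h5] at h4
      have := neg_le_abs (f (q - p) - δ / 2 * f v)
      linarith
  · have h1 := F_mono μ hK hc hKne (M' := p +ᵥ A) (hA.vadd p) (hAc.vadd p) (q - p) (by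
      intro k hk
      obtain ⟨a, ha, t, _, _, rfl⟩ := hdec k hk
      refine ⟨t, p + a, ⟨a, ha, rfl⟩, ?_⟩
      abel)
    refine h1.trans ?_
    unfold F
    have h2 : seg 1 (q - p) + (p +ᵥ A) = A + segment ℝ p q := by
      rw [segment_eq_vadd]
      ext z
      constructor
      · rintro ⟨s, hs, w, ⟨a, ha, rfl⟩, rfl⟩
        refine ⟨a, ha, p + s, ⟨s, hs, rfl⟩, ?_⟩
        simp only [vadd_eq_add]
        abel
      · rintro ⟨a, ha, w, ⟨s, hs, rfl⟩, rfl⟩
        refine ⟨s, hs, p + a, ⟨a, ha, rfl⟩, ?_⟩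
        simp only [vadd_eq_add]
        abel
    rw [h2]
    have h3 : 0 ≤ μ.real (p +ᵥ A) := measureReal_nonneg
    linarith

omit [FiniteDimensional ℝ E] [MeasurableSpace E] [BorelSpace E] in
lemma incl833 {K : Set E} (hc : Convex ℝ K) {k0 : E} {δ ε : ℝ}
    (hδ : Metric.closedBall k0 δ ⊆ K) (hε : 0 < ε) {u v : E} (h : ‖u - v‖ ≤ ε * δ) :
    seg 1 u + K ⊆ (-(ε • k0)) +ᵥ ((1 + ε) • (seg 1 v + K)) := by
  intro z hz
  obtain ⟨t, ht0, ht1, k, hk, rfl⟩ := mem_seg_add.1 hz
  have hp : 0 < 1 + ε := by linarith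
  have hw : ‖(t / ε) • (u - v)‖ ≤ δ := by
    rw [norm_smul, Real.norm_eq_abs, abs_of_nonneg (div_nonneg ht0 hε.le)]
    calc t / ε * ‖u - v‖ ≤ t / ε * (ε * δ) :=
          mul_le_mul_of_nonneg_left h (div_nonneg ht0 hε.le)
      _ = t * δ := by field_simp
      _ ≤ 1 * δ := by
          have hδ0 : 0 ≤ δ := by
            by_contra hn
            push Not at hn
            have h5 := norm_nonneg (u - v)
            nlinarith only [h5, h, hn, hε]
          exact mul_le_mul_of_nonneg_right ht1 hδ0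
      _ = δ := one_mul δ
  have hk1 : k0 + (t / ε) • (u - v) ∈ K := by
    apply hδ
    rw [mem_closedBall_iff_norm, add_sub_cancel_left]
    exact hw
  have hk2 : (1 / (1 + ε)) • k + (ε / (1 + ε)) • (k0 + (t / ε) • (u - v)) ∈ K := by
    apply hc hk hk1 (by positivity) (by positivity)
    field_simp
  refine Set.mem_vadd_set.2 ⟨(1 + ε) • ((t / (1 + ε)) • v +
    ((1 / (1 + ε)) • k + (ε / (1 + ε)) • (k0 + (t / ε) • (u - v)))), ?_, ?_⟩
  · apply Set.smul_mem_smul_set
    apply mem_seg_add.2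
    refine ⟨t / (1 + ε), by positivity, ?_, _, hk2, rfl⟩
    rw [div_le_one hp]; linarith
  · rw [vadd_eq_add, smul_add, smul_add, smul_smul, smul_smul, smul_smul, mul_div_cancel₀ _ hp.ne',
      mul_div_cancel₀ _ hp.ne', mul_div_cancel₀ _ hp.ne', smul_add, smul_smul,
      mul_div_cancel₀ _ hε.ne', one_smul, smul_sub]
    abel

lemma le833 {K : Set E} (hK : IsCompact K) (hc : Convex ℝ K) {k0 : E} {δ ε : ℝ}
    (hδ : Metric.closedBall k0 δ ⊆ K) (hε : 0 ≤ ε) {u v : E} (h : ‖u - v‖ ≤ ε * δ) :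
    μ.real (seg 1 u + K) ≤ (1 + ε) ^ (finrank ℝ E) * μ.real (seg 1 v + K) := by
  rcases hε.eq_or_lt with h0 | h0
  · rw [← h0, zero_mul] at h
    have h1 : u = v := by
      rw [← sub_eq_zero, ← norm_eq_zero]
      exact le_antisymm h (norm_nonneg _)
    rw [← h0, h1, add_zero, one_pow, one_mul]
  · have hfin : μ (seg 1 v + K) ≠ ⊤ := ((isCompact_seg 1 v).add hK).measure_lt_top.ne
    have hm : μ ((-(ε • k0)) +ᵥ ((1 + ε) • (seg 1 v + K)))
        = ENNReal.ofReal ((1 + ε) ^ (finrank ℝ E)) * μ (seg 1 v + K) := by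
      rw [measure_vadd, Measure.addHaar_smul, abs_of_nonneg (by positivity)]
    calc μ.real (seg 1 u + K) ≤ μ.real ((-(ε • k0)) +ᵥ ((1 + ε) • (seg 1 v + K))) := by
          refine measureReal_mono (incl833 hc hδ h0 h) ?_
          rw [hm]
          exact ENNReal.mul_ne_top ENNReal.ofReal_ne_top hfin
      _ = (1 + ε) ^ (finrank ℝ E) * μ.real (seg 1 v + K) := by
          rw [measureReal_def, hm, ENNReal.toReal_mul, ENNReal.toReal_ofReal (by positivity),
            measureReal_def]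

lemma vol_cont {K : Set E} (hK : IsCompact K) (hc : Convex ℝ K) (hi : (interior K).Nonempty) :
    Continuous (fun u : E => μ.real (seg 1 u + K)) := by
  obtain ⟨k0, hk0⟩ := hi
  obtain ⟨δ, hδ0, hδ⟩ := Metric.nhds_basis_closedBall.mem_iff.1 (mem_interior_iff_mem_nhds.1 hk0)
  rw [continuous_iff_continuousAt]
  intro u
  have hlow : ∀ v : E, μ.real (seg 1 u + K) / (1 + ‖v - u‖ / δ) ^ (finrank ℝ E)
      ≤ μ.real (seg 1 v + K) := by
    intro v
    rw [div_le_iff₀ (by positivity), mul_comm]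
    apply le833 μ hK hc hδ (by positivity)
    rw [div_mul_cancel₀ _ hδ0.ne', norm_sub_rev]
  have hup : ∀ v : E, μ.real (seg 1 v + K)
      ≤ (1 + ‖v - u‖ / δ) ^ (finrank ℝ E) * μ.real (seg 1 u + K) := by
    intro v
    apply le833 μ hK hc hδ (by positivity)
    rw [div_mul_cancel₀ _ hδ0.ne']
  have hcont : Continuous (fun v : E => (1 + ‖v - u‖ / δ) ^ (finrank ℝ E)) := by fun_prop
  have ht : Filter.Tendsto (fun v : E => (1 + ‖v - u‖ / δ) ^ (finrank ℝ E)) (nhds u) (nhds 1) := by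
    have h1 := hcont.tendsto u
    simpa using h1
  have ht1 : Filter.Tendsto (fun v : E => μ.real (seg 1 u + K) / (1 + ‖v - u‖ / δ) ^ (finrank ℝ E))
      (nhds u) (nhds (μ.real (seg 1 u + K))) := by
    have h1 := (tendsto_const_nhds (x := μ.real (seg 1 u + K)) (f := nhds u)).div ht one_ne_zero
    rwa [div_one] at h1
  have ht2 : Filter.Tendsto (fun v : E => (1 + ‖v - u‖ / δ) ^ (finrank ℝ E) * μ.real (seg 1 u + K))
      (nhds u) (nhds (μ.real (seg 1 u + K))) := by
    have h1 := ht.mul (tendsto_const_nhds (x := μ.real (seg 1 u + K)) (f := nhds u))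
    rwa [one_mul] at h1
  exact tendsto_of_tendsto_of_tendsto_of_le_of_le ht1 ht2 hlow hup

lemma attained {K : Set E} (hK : IsCompact K) (hc : Convex ℝ K) (hi : (interior K).Nonempty)
    (hd : 1 ≤ finrank ℝ E) (N : Seminorm ℝ E) (hN : Continuous N) (hN0 : ∀ z, N z = 0 → z = 0) :
    ∃ u : E, N u = 1 ∧ ∀ v : E, N v = 1 → F μ K u ≤ F μ K v := by
  have hprop : ProperSpace E := FiniteDimensional.proper ℝ E
  have hnt : Nontrivial E := Module.nontrivial_of_finrank_pos (R := ℝ) (by omega)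
  obtain ⟨z0, hz0⟩ := exists_ne (0 : E)
  have hNpos : ∀ z : E, z ≠ 0 → 0 < N z := fun z hz =>
    lt_of_le_of_ne (apply_nonneg N z) (fun h => hz (hN0 z h.symm))
  have hsph : IsCompact (Metric.sphere (0 : E) 1) := isCompact_sphere 0 1
  have hsphne : (Metric.sphere (0 : E) 1).Nonempty := by
    refine ⟨‖z0‖⁻¹ • z0, ?_⟩
    rw [mem_sphere_zero_iff_norm, norm_smul, norm_inv, norm_norm, inv_mul_cancel₀ (norm_ne_zero_iff.2 hz0)]
  obtain ⟨w, hw, hwmin⟩ := hsph.exists_isMinOn hsphne hN.continuousOn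
  have hw0 : w ≠ 0 := by
    rintro rfl
    rw [mem_sphere_zero_iff_norm, norm_zero] at hw
    exact zero_ne_one hw
  have hc0 : 0 < N w := hNpos w hw0
  have hlow : ∀ z : E, N w * ‖z‖ ≤ N z := by
    intro z
    by_cases hz : z = 0
    · rw [hz, norm_zero, mul_zero]; exact apply_nonneg N _
    · have hz1 : (0 : ℝ) < ‖z‖ := norm_pos_iff.2 hz
      have h1 : ‖z‖⁻¹ • z ∈ Metric.sphere (0 : E) 1 := by
        rw [mem_sphere_zero_iff_norm, norm_smul, norm_inv, norm_norm, inv_mul_cancel₀ hz1.ne']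
      have h2 : N w ≤ N (‖z‖⁻¹ • z) := hwmin h1
      rw [map_smul_eq_mul, norm_inv, norm_norm, inv_mul_eq_div, le_div_iff₀ hz1] at h2
      exact h2
  have hcomp : IsCompact {u : E | N u = 1} := by
    refine Metric.isCompact_of_isClosed_isBounded (isClosed_eq hN continuous_const) ?_
    refine (Metric.isBounded_closedBall (x := (0 : E)) (r := (N w)⁻¹)).subset ?_
    intro u hu
    rw [mem_closedBall_zero_iff]
    have h1 := hlow u
    have h2 : N u = 1 := hu
    rw [h2] at h1
    rw [← one_div, le_div_iff₀ hc0, mul_comm]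
    exact h1
  have hne : {u : E | N u = 1}.Nonempty := by
    refine ⟨(N z0)⁻¹ • z0, ?_⟩
    show N ((N z0)⁻¹ • z0) = 1
    rw [map_smul_eq_mul, norm_inv, Real.norm_of_nonneg (apply_nonneg N z0),
      inv_mul_cancel₀ (hNpos z0 hz0).ne']
  have hFc : Continuous (F μ K) := (vol_cont μ hK hc hi).sub continuous_const
  obtain ⟨u, hu, humin⟩ := hcomp.exists_isMinOn hne hFc.continuousOn
  exact ⟨u, hu, fun v hv => humin hv⟩

/-- separation of centres -/
lemma sep {K : Set E} (N : Seminorm ℝ E)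
    (hN2 : ∀ z, N z < 1 → ∃ a ∈ interior K, ∃ b ∈ interior K, z = a - b) {x y : E}
    (h : Disjoint (interior (x +ᵥ K)) (interior (y +ᵥ K))) : 1 ≤ N (x - y) := by
  by_contra hlt
  push Not at hlt
  obtain ⟨a, ha, b, hb, hab⟩ := hN2 _ hlt
  rw [interior_vadd, interior_vadd] at h
  have h2 : y + a = x + b := by
    have : x - y - (a - b) = 0 := by rw [hab]; simp
    rw [eq_comm, ← sub_eq_zero, ← this]; abel
  exact Set.disjoint_left.1 h (Set.mem_vadd_set.2 ⟨b, hb, rfl⟩)
    (Set.mem_vadd_set.2 ⟨a, ha, h2⟩)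

/-- the core estimate -/
lemma core {K : Set E} (hK : IsCompact K) (hc : Convex ℝ K) (hi : (interior K).Nonempty)
    (N : Seminorm ℝ E) (hN : Continuous N) (hN0 : ∀ z, N z = 0 → z = 0)
    (hN1 : ∀ a ∈ K, ∀ b ∈ K, N (a - b) ≤ 1)
    (hN2 : ∀ z, N z < 1 → ∃ a ∈ interior K, ∃ b ∈ interior K, z = a - b)
    (hN3 : ∀ a ∈ interior K, ∀ b ∈ interior K, N (a - b) < 1)
    {r : ℝ} (hr : 0 < r) (hr' : r < 1/1024) {n : ℕ} (hn : 2 ≤ n) (x : Fin n → E)
    (hx : ∀ i j : Fin n, i ≠ j → 1 ≤ N (x i - x j)) :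
    ∃ (p b : E) (l β : ℝ), N b = 1 ∧ 1 ≤ l ∧ 0 ≤ β ∧ (n : ℝ) - 1 ≤ l + 8 * β ∧
      μ.real (r • K) + (l + β / (128 * r)) * F μ (r • K) b
        ≤ μ.real (convexHull ℝ (Set.range x) + r • K) ∧
      (β = 0 → convexHull ℝ (Set.range x) = p +ᵥ seg l b) := by
  classical
  have hKne : K.Nonempty := hi.mono interior_subset
  obtain ⟨k0, hk0⟩ := hKne
  have hKr : IsCompact (r • K) := hK.smul r
  have hKrc : Convex ℝ (r • K) := hc.smul r
  have hKrne : (r • K).Nonempty := (show K.Nonempty from ⟨k0, hk0⟩).smul_set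
  let i0 : Fin n := ⟨0, by omega⟩
  let i1 : Fin n := ⟨1, by omega⟩
  obtain ⟨⟨a, a'⟩, -, hmax⟩ := Finset.exists_max_image
    (Finset.univ : Finset (Fin n × Fin n)) (fun s => N (x s.2 - x s.1))
    ⟨(i0, i1), Finset.mem_univ _⟩
  have hmax' : ∀ i j : Fin n, N (x i - x j) ≤ N (x a' - x a) := fun i j =>
    hmax (j, i) (Finset.mem_univ _)
  set l := N (x a' - x a) with hl
  have hl1 : 1 ≤ l := (hx i0 i1 (by simp [i0, i1])).trans (hmax' i0 i1)
  have hl0 : l ≠ 0 := by linarith
  set b := l⁻¹ • (x a' - x a) with hbdef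
  have hb : N b = 1 := by
    rw [hbdef, map_smul_eq_mul, Real.norm_eq_abs, abs_of_pos (by positivity), ← hl,
      inv_mul_cancel₀ hl0]
  have hq : x a' = x a + l • b := by
    rw [hbdef, smul_smul, mul_inv_cancel₀ hl0, one_smul]; abel
  have near : ∀ i, ∃ t : ℝ, 0 ≤ t ∧ t ≤ l ∧ N (x i - (x a + t • b)) ≤ l ∧
      ∀ s : ℝ, N (x i - (x a + t • b)) / 2 ≤ N (x i - (x a + s • b)) := by
    intro i
    apply near_point N hN (by linarith) hb (hmax' i a)
    rw [← hq]; exact hmax' i a'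
  choose t ht0 htl hte hts using near
  set C := convexHull ℝ (Set.range x) with hC
  have hCc : Convex ℝ C := convex_convexHull ℝ _
  have hxC : ∀ i, x i ∈ C := fun i => subset_convexHull ℝ _ ⟨i, rfl⟩
  have hseg : (x a +ᵥ seg l b) ⊆ C := by
    rintro z ⟨w, hw, rfl⟩
    obtain ⟨u, hu0, hul, rfl⟩ := mem_seg.1 hw
    show x a + u • b ∈ C
    have h4 : x a + u • b = (1 - u / l) • x a + (u / l) • x a' := by
      have h5 : u • b = (u / l) • (x a' - x a) := by
        rw [hbdef, smul_smul, div_eq_mul_inv]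
      rw [h5, smul_sub, sub_smul, one_smul]; abel
    rw [h4]
    apply hCc (hxC a) (hxC a')
    · have : u / l ≤ 1 := by rw [div_le_one (by linarith)]; exact hul
      linarith
    · exact div_nonneg hu0 (by linarith)
    · ring
  have hpc : ∀ i, ∃ W : Set E, MeasurableSet W ∧ W ⊆ C + r • K ∧
      Disjoint W ((x a +ᵥ seg l b) + r • K) ∧ (∀ z ∈ W, N (z - (x i + r • k0)) < 1/2) ∧
      min (N (x i - (x a + t i • b))) (1/8) / (128 * r) * F μ (r • K) b ≤ μ.real W := by
    intro i
    exact piece μ hK hc hi N hN hN1 hN3 hr hr' hk0 hCc hl1 hb (hxC a) (by rw [← hq]; exact hxC a')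
      (hxC i) (ht0 i) (htl i) (hte i) (hts i)
  choose W hWm hWC hWS hWN hWv using hpc
  have hCcomp : IsCompact C := (Set.finite_range x).isCompact_convexHull ℝ
  have hT : μ (C + r • K) ≠ ⊤ := (hCcomp.add hKr).measure_lt_top.ne
  have htot := total (ν := μ) ((x a +ᵥ seg l b) + r • K) (C + r • K) W hWm hT
    (Set.add_subset_add_right hseg) hWC hWS (by
      intro i j hij
      rw [Set.disjoint_left]
      intro z hzi hzj
      have h1 := hWN i z hzi
      have h2 := hWN j z hzj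
      have h3 := hx i j hij
      have h4 : x i - x j = (z - (x j + r • k0)) - (z - (x i + r • k0)) := by abel
      rw [h4] at h3
      have h5 := map_sub_le_add N (z - (x j + r • k0)) (z - (x i + r • k0))
      linarith)
  have hS : μ.real ((x a +ᵥ seg l b) + r • K) = μ.real (r • K) + l * F μ (r • K) b := by
    rw [← seg_lin μ hKr hKrc hKrne b (by linarith : (0:ℝ) ≤ l), vadd_add_set]
    simp only [measureReal_def, measure_vadd]
  set β := ∑ i, min (N (x i - (x a + t i • b))) (1/8) with hβ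
  have hmin0 : ∀ i, 0 ≤ min (N (x i - (x a + t i • b))) (1/8) := fun i =>
    le_min (apply_nonneg N _) (by norm_num)
  refine ⟨x a, b, l, β, hb, hl1, Finset.sum_nonneg fun i _ => hmin0 i, ?_, ?_, ?_⟩
  · apply chain t (fun i => N (x i - (x a + t i • b))) (by linarith)
      (fun i => ⟨ht0 i, htl i⟩) (fun i => apply_nonneg N _)
    intro i j hij
    have h1 := hx i j hij
    have h2 : x i - x j = ((x i - (x a + t i • b)) - (x j - (x a + t j • b)))
        + (t i - t j) • b := by rw [sub_smul]; abel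
    have h3 := map_add_le_add N ((x i - (x a + t i • b)) - (x j - (x a + t j • b)))
      ((t i - t j) • b)
    have h4 := map_sub_le_add N (x i - (x a + t i • b)) (x j - (x a + t j • b))
    rw [← h2, map_smul_eq_mul, hb, Real.norm_eq_abs, mul_one] at h3
    linarith
  · have h1 : β / (128 * r) * F μ (r • K) b ≤ ∑ i, μ.real (W i) := by
      rw [hβ, Finset.sum_div, Finset.sum_mul]
      exact Finset.sum_le_sum fun i _ => hWv i
    rw [hS] at htot
    calc μ.real (r • K) + (l + β / (128 * r)) * F μ (r • K) b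
        = (μ.real (r • K) + l * F μ (r • K) b) + β / (128 * r) * F μ (r • K) b := by ring
      _ ≤ _ := by linarith
  · intro hβ0
    have hz : ∀ i, min (N (x i - (x a + t i • b))) (1/8) = 0 := by
      intro i
      exact (Finset.sum_eq_zero_iff_of_nonneg (fun i _ => hmin0 i)).1 hβ0 i (Finset.mem_univ _)
    apply Set.Subset.antisymm _ hseg
    apply convexHull_min
    · rintro _ ⟨i, rfl⟩
      have h1 := hz i
      have h2 : N (x i - (x a + t i • b)) = 0 := by
        rcases min_choice (N (x i - (x a + t i • b))) (1/8) with h | h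
        · rw [← h]; exact h1
        · rw [h] at h1; norm_num at h1
      have h3 := hN0 _ h2
      exact ⟨t i • b, mem_seg.2 ⟨t i, ht0 i, htl i, rfl⟩, (sub_eq_zero.1 h3).symm⟩
    · exact (convex_seg l b).vadd (x a)

/-- the set of volumes of cylinders containing K -/
def cylSet (K : Set E) : Set ℝ :=
  {r : ℝ | ∃ (A : Set E) (p q : E), IsCompact A ∧ Convex ℝ A ∧
    finrank ℝ (vectorSpan ℝ A) = finrank ℝ E - 1 ∧
    K ⊆ A + segment ℝ p q ∧ r = μ.real (A + segment ℝ p q)}

lemma F_pos {K : Set E} (hK : IsCompact K) (hc : Convex ℝ K) (hi : (interior K).Nonempty)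
    (N : Seminorm ℝ E)
    (hN3 : ∀ a ∈ interior K, ∀ b ∈ interior K, N (a - b) < 1) {u : E} (hu : N u = 1) :
    0 < F μ K u := by
  have hKne : K.Nonempty := hi.mono interior_subset
  have h1 : Disjoint (interior K) (u +ᵥ interior K) := by
    rw [Set.disjoint_left]
    rintro a ha ⟨c, hc', rfl⟩
    have h2 := hN3 _ ha _ hc'
    have h3 : (u +ᵥ c) - c = u := by show u + c - c = u; abel
    simp only [h3] at h2
    linarith
  have h2 := F_ge μ hK hc hKne u h1
  have h3 : 0 < μ.real K := by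
    rw [measureReal_def]
    apply ENNReal.toReal_pos _ hK.measure_lt_top.ne
    exact (Measure.measure_pos_of_nonempty_interior μ hi).ne'
  linarith

lemma Z_facts {K : Set E} (hK : IsCompact K) (hc : Convex ℝ K) (hi : (interior K).Nonempty)
    (hd : 1 ≤ finrank ℝ E)
    (N : Seminorm ℝ E) (hN : Continuous N) (hN0 : ∀ z, N z = 0 → z = 0)
    (hN2 : ∀ z, N z < 1 → ∃ a ∈ interior K, ∃ b ∈ interior K, z = a - b)
    (hN3 : ∀ a ∈ interior K, ∀ b ∈ interior K, N (a - b) < 1)
    {Z : ℝ} (hZ : Z = sInf (cylSet μ K)) :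
    (∃ u : E, N u = 1 ∧ F μ K u = Z) ∧ (∀ v : E, N v = 1 → Z ≤ F μ K v) ∧
      (∀ v : E, 1 ≤ N v → Z ≤ F μ K v) := by
  have hKne : K.Nonempty := hi.mono interior_subset
  obtain ⟨u, hu, hmin⟩ := attained μ hK hc hi hd N hN hN0
  have hupos := F_pos μ hK hc hi N hN3 hu
  have hne : ∀ v : E, 1 ≤ N v → ∀ a ∈ interior K, ∀ c ∈ interior K, v ≠ a - c := by
    intro v hv a ha c hc' h
    have := hN3 a ha c hc'
    rw [← h] at this
    linarith
  have hlow : ∀ v : E, 1 ≤ N v → F μ K u ≤ F μ K v := by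
    intro v hv
    have hv0 : N v ≠ 0 := by linarith
    have h1 : v = N v • ((N v)⁻¹ • v) := by rw [smul_smul, mul_inv_cancel₀ hv0, one_smul]
    have h2 : N ((N v)⁻¹ • v) = 1 := by
      rw [map_smul_eq_mul, Real.norm_eq_abs, abs_of_pos (by positivity), inv_mul_cancel₀ hv0]
    have h3 := hmin _ h2
    rw [h1, F_smul μ hK hc hKne _ (by linarith)]
    have h4 : N (N v • (N v)⁻¹ • v) = N v := by rw [← h1]
    nlinarith
  have hmem : ∀ v : E, N v = 1 → F μ K v ∈ cylSet μ K := by
    intro v hv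
    obtain ⟨A, hA, hAc, hAd, hKA, hAv⟩ := cyl_exists μ hK hc hi (hne v hv.ge)
    exact ⟨A, 0, v, hA, hAc, hAd, hKA, hAv.symm⟩
  have hbdd : BddBelow (cylSet μ K) := by
    refine ⟨0, ?_⟩
    rintro r ⟨A, p, q, -, -, -, -, rfl⟩
    exact measureReal_nonneg
  have hle : ∀ v : E, N v = 1 → Z ≤ F μ K v := by
    intro v hv
    rw [hZ]
    exact csInf_le hbdd (hmem v hv)
  have hge : F μ K u ≤ Z := by
    rw [hZ]
    apply le_csInf ⟨_, hmem u hu⟩
    rintro r ⟨A, p, q, hA, hAc, hAd, hKA, rfl⟩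
    obtain ⟨h1, h2⟩ := cyl_lower μ hK hc hi hd hA hAc hAd hKA
    refine le_trans (hlow (q - p) ?_) h2
    by_contra hlt
    push Not at hlt
    obtain ⟨a, ha, c, hc', h⟩ := hN2 _ hlt
    exact h1 a ha c hc' h
  have heq : F μ K u = Z := le_antisymm hge (hle u hu)
  refine ⟨⟨u, hu, heq⟩, hle, ?_⟩
  intro v hv
  rw [← heq]
  exact hlow v hv

theorem final {K : Set E} (hK : IsCompact K) (hc : Convex ℝ K) (hi : (interior K).Nonempty)
    (hd : 1 ≤ finrank ℝ E) {Z : ℝ} (hZ : Z = sInf (cylSet μ K)) {n : ℕ} (hn : 1 ≤ n)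
    (x : Fin n → E)
    (hx : ∀ i j : Fin n, i ≠ j → Disjoint (interior (x i +ᵥ K)) (interior (x j +ᵥ K)))
    {r : ℝ} (hr : 0 < r) (hr' : r < 1/1024) :
    ((n : ℝ) - 1) * Z * r ^ (finrank ℝ E - 1) + μ.real K * r ^ (finrank ℝ E)
        ≤ μ.real (convexHull ℝ (Set.range x) + r • K) ∧
    (μ.real (convexHull ℝ (Set.range x) + r • K)
        = ((n : ℝ) - 1) * Z * r ^ (finrank ℝ E - 1) + μ.real K * r ^ (finrank ℝ E) ↔
      ∃ (A : Set E) (p q : E), IsCompact A ∧ Convex ℝ A ∧
        finrank ℝ (vectorSpan ℝ A) = finrank ℝ E - 1 ∧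
        K ⊆ A + segment ℝ p q ∧ μ.real (A + segment ℝ p q) = Z ∧
        ∃ b : E, convexHull ℝ (Set.range x) = segment ℝ b (b + ((n : ℝ) - 1) • (q - p))) := by
  obtain ⟨N, hN, hN0, hN1, hN2, hN3⟩ := exists_norm hK hc hi
  obtain ⟨⟨u0, hu0, hu0Z⟩, hZle, hZle'⟩ := Z_facts μ hK hc hi hd N hN hN0 hN2 hN3 hZ
  have hZpos : 0 < Z := by rw [← hu0Z]; exact F_pos μ hK hc hi N hN3 hu0
  have hKne : K.Nonempty := hi.mono interior_subset
  have hKr : IsCompact (r • K) := hK.smul r
  have hKrc : Convex ℝ (r • K) := hc.smul r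
  have hKrne : (r • K).Nonempty := hKne.smul_set
  have hne : ∀ v : E, 1 ≤ N v → ∀ a ∈ interior K, ∀ c ∈ interior K, v ≠ a - c := by
    intro v hv a ha c hc' h
    have := hN3 a ha c hc'
    rw [← h] at this
    linarith
  have hvK : μ.real (r • K) = μ.real K * r ^ (finrank ℝ E) := by
    rw [measureReal_def, Measure.addHaar_smul, ENNReal.toReal_mul,
      ENNReal.toReal_ofReal (abs_nonneg _), abs_of_nonneg (by positivity), measureReal_def,
      mul_comm]
  have hFr : ∀ v : E, F μ (r • K) v = r ^ (finrank ℝ E - 1) * F μ K v := fun v =>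
    F_scale μ hK hc hKne v hd hr
  have hrp : 0 < r ^ (finrank ℝ E - 1) := by positivity
  -- the sufficiency computation
  have hsuff : ∀ (A : Set E) (p q : E), IsCompact A → Convex ℝ A →
        finrank ℝ (vectorSpan ℝ A) = finrank ℝ E - 1 →
        K ⊆ A + segment ℝ p q → μ.real (A + segment ℝ p q) = Z → ∀ b : E,
        convexHull ℝ (Set.range x) = segment ℝ b (b + ((n : ℝ) - 1) • (q - p)) →
        μ.real (convexHull ℝ (Set.range x) + r • K)
        = ((n : ℝ) - 1) * Z * r ^ (finrank ℝ E - 1) + μ.real K * r ^ (finrank ℝ E) := by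
    intro A p q hA hAc hAd hKA hAZ b hC
    have hn1 : (0 : ℝ) ≤ (n : ℝ) - 1 := by
      have : (1 : ℝ) ≤ n := by exact_mod_cast hn
      linarith
    obtain ⟨h1, h2⟩ := cyl_lower μ hK hc hi hd hA hAc hAd hKA
    have h3 : 1 ≤ N (q - p) := by
      by_contra hlt
      push Not at hlt
      obtain ⟨a, ha, c, hc', h⟩ := hN2 _ hlt
      exact h1 a ha c hc' h
    have h4 : F μ K (q - p) = Z := le_antisymm (hAZ ▸ h2) (hZle' _ h3)
    have h5 : convexHull ℝ (Set.range x) = b +ᵥ seg ((n : ℝ) - 1) (q - p) := by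
      rw [hC, segment_eq_vadd, seg_eq_segment hn1, add_sub_cancel_left,
        seg_eq_segment zero_le_one, one_smul]
    rw [h5, vadd_add_set]
    have h6 : μ.real (b +ᵥ (seg ((n : ℝ) - 1) (q - p) + r • K))
        = μ.real (seg ((n : ℝ) - 1) (q - p) + r • K) := by
      simp only [measureReal_def, measure_vadd]
    rw [h6, seg_lin μ hKr hKrc hKrne _ hn1, hFr, h4, hvK]
    ring
  rcases Nat.lt_or_ge n 2 with hlt | hge
  · -- one translate
    have hn1 : n = 1 := by omega
    subst hn1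
    have hC : convexHull ℝ (Set.range x) = {x 0} := by
      have : Set.range x = {x 0} := by
        ext z
        constructor
        · rintro ⟨i, rfl⟩
          rw [Subsingleton.elim i 0]; rfl
        · rintro rfl; exact ⟨0, rfl⟩
      rw [this, convexHull_singleton]
    obtain ⟨A, hA, hAc, hAd, hKA, hAv⟩ := cyl_exists μ hK hc hi (hne u0 hu0.ge)
    have hCseg : convexHull ℝ (Set.range x)
        = segment ℝ (x 0) (x 0 + (((1 : ℕ) : ℝ) - 1) • (u0 - 0)) := by
      rw [hC]; simp [segment_same]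
    have heq := hsuff A 0 u0 hA hAc hAd hKA (hAv.trans hu0Z) (x 0) hCseg
    refine ⟨heq.ge, ?_⟩
    constructor
    · intro _
      exact ⟨A, 0, u0, hA, hAc, hAd, hKA, hAv.trans hu0Z, x 0, hCseg⟩
    · rintro ⟨A, p, q, hA, hAc, hAd, hKA, hAZ, b, hb⟩
      exact hsuff A p q hA hAc hAd hKA hAZ b hb
  · obtain ⟨p, b, l, β, hb, hl1, hβ, hnl, hvol, hβ0⟩ := core μ hK hc hi N hN hN0 hN1 hN2 hN3
      hr hr' hge x (fun i j hij => sep N hN2 (hx i j hij))
    have hFZ : Z ≤ F μ K b := hZle b hb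
    have hn2 : (2 : ℝ) ≤ n := by exact_mod_cast hge
    have h8 : 8 * β ≤ β / (128 * r) := by
      rw [le_div_iff₀ (by positivity)]
      nlinarith
    have hcoef : (n : ℝ) - 1 ≤ l + β / (128 * r) := by linarith
    rw [hvK, hFr] at hvol
    have hprod : ((n : ℝ) - 1) * Z ≤ (l + β / (128 * r)) * F μ K b :=
      mul_le_mul hcoef hFZ hZpos.le (by linarith)
    have hineq : ((n : ℝ) - 1) * Z * r ^ (finrank ℝ E - 1) + μ.real K * r ^ (finrank ℝ E)
        ≤ μ.real (convexHull ℝ (Set.range x) + r • K) := by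
      have := mul_le_mul_of_nonneg_right hprod hrp.le
      calc _ ≤ μ.real K * r ^ (finrank ℝ E)
            + (l + β / (128 * r)) * (r ^ (finrank ℝ E - 1) * F μ K b) := by linarith
        _ ≤ _ := hvol
    refine ⟨hineq, ?_⟩
    constructor
    · intro heq
      have h1 : (l + β / (128 * r)) * F μ K b ≤ ((n : ℝ) - 1) * Z := by
        have : (l + β / (128 * r)) * F μ K b * r ^ (finrank ℝ E - 1)
            ≤ ((n : ℝ) - 1) * Z * r ^ (finrank ℝ E - 1) := by
          rw [heq] at hvol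
          linarith
        exact le_of_mul_le_mul_right this hrp
      have hβz : β = 0 := by
        by_contra hne0
        have hβpos : 0 < β := lt_of_le_of_ne hβ (Ne.symm hne0)
        have h9 : 8 * β < β / (128 * r) := by
          rw [lt_div_iff₀ (by positivity)]
          have : (1024 : ℝ) * r < 1 := by linarith
          nlinarith
        have h10 : (n : ℝ) - 1 < l + β / (128 * r) := by linarith
        have h11 : ((n : ℝ) - 1) * Z < (l + β / (128 * r)) * F μ K b := by
          calc ((n : ℝ) - 1) * Z < (l + β / (128 * r)) * Z := mul_lt_mul_of_pos_right h10 hZpos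
            _ ≤ _ := mul_le_mul_of_nonneg_left hFZ (by linarith)
        linarith
      rw [hβz] at h1 hnl hcoef
      simp only [zero_div, add_zero, mul_zero] at h1 hnl hcoef
      have hFb : F μ K b = Z := by
        apply le_antisymm _ hFZ
        have h12 : l * F μ K b ≤ l * Z := h1.trans (mul_le_mul_of_nonneg_right hnl hZpos.le)
        exact le_of_mul_le_mul_left h12 (by linarith)
      have hln : l = (n : ℝ) - 1 := by
        apply le_antisymm _ hnl
        rw [hFb] at h1
        exact le_of_mul_le_mul_right h1 hZpos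
      obtain ⟨A, hA, hAc, hAd, hKA, hAv⟩ := cyl_exists μ hK hc hi (hne b hb.ge)
      refine ⟨A, 0, b, hA, hAc, hAd, hKA, hAv.trans hFb, p, ?_⟩
      rw [hβ0 hβz, ← hln, sub_zero, segment_eq_vadd p, add_sub_cancel_left,
        seg_eq_segment (by linarith : (0:ℝ) ≤ l), seg_eq_segment zero_le_one, one_smul]
    · rintro ⟨A, p, q, hA, hAc, hAd, hKA, hAZ, b, hb⟩
      exact hsuff A p q hA hAc hAd hKA hAZ b hb

end Pool.Agent.Helper279.Sau
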